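import Pool.Agent.EGN.Targets

set_option autoImplicit false
open MvPolynomial hiding R

/-!
# BCH: base change of systems of quadrics (EGN project)
-/

namespace Pool.Agent.EGN

open Pool.Agent.EGU Pool.Agent.EGS

universe u

namespace BCH_

open BC2_

variable {K E : Type u} [Field K] [Field E] [Algebra K E] {n : ℕ}

lemma finrank_R (d : ℕ) : Module.finrank E (Rd E n d) = Module.finrank K (Rd K n d) := by
  have : Module.Finite K (Rd K n d) := (t_dimr K n d).1
  rw [← Rd_ext (K := K)]
  exact finrank_ext (Rd K n d)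

lemma mul_ext (W : Submodule K (R K n)) :
    (Rd E n 1 * ext E W : Submodule E (R E n)) = ext E (Rd K n 1 * W) := by
  rw [← Rd_ext (K := K)]
  apply le_antisymm
  · unfold BC2_.ext
    rw [Submodule.span_mul_span]
    refine Submodule.span_le.mpr ?_
    rintro _ ⟨_, ⟨p, hp, rfl⟩, _, ⟨q, hq, rfl⟩, rfl⟩
    show MvPolynomial.map (algebraMap K E) p * MvPolynomial.map (algebraMap K E) q ∈ _
    rw [← map_mul]
    exact map_mem (Submodule.mul_mem_mul hp hq)
  · refine Submodule.span_le.mpr ?_
    rintro _ ⟨p, hp, rfl⟩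
    refine Submodule.mul_induction_on hp ?_ ?_
    · intro x hx y hy
      rw [map_mul]
      exact Submodule.mul_mem_mul (map_mem hx) (map_mem hy)
    · intro x y hx hy
      rw [map_add]
      exact Submodule.add_mem _ hx hy

lemma mul_le' (W : Submodule K (R K n)) (hW : W ≤ Rd K n 2) :
    (Rd K n 1 * W : Submodule K (R K n)) ≤ Rd K n 3 := by
  refine Submodule.mul_le.mpr fun p hp q hq => ?_
  have h1 : (p * q).IsHomogeneous (1 + 2) := MvPolynomial.IsHomogeneous.mul hp (hW hq)
  exact h1

end BCH_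

open BC2_ BCH_ in
/-- The target `T_BCH`. -/
theorem p_BCH : T_BCH.{u} := by
  intro K E _ _ _ n W hW
  obtain ⟨f, hf, hJ, hR⟩ := hW
  have hRK : ∀ d, Module.Finite K (Rd K n d) := fun d => (t_dimr K n d).1
  have fW : Module.Finite K W := Submodule.finiteDimensional_of_le hR
  have fRW : Module.Finite K (Rd K n 1 * W : Submodule K (R K n)) :=
    Submodule.finiteDimensional_of_le (mul_le' W hR)
  refine ⟨ext E W, ⟨fun i => MvPolynomial.map (algebraMap K E) (f i), t_bc1 K E n n f _ hf,
    ?_, ?_⟩, ?_, ?_⟩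
  · rw [← Jd_ext t_jd f (tw n) hf.hom 2]
    exact ext_mono hJ
  · rw [← Rd_ext (K := K)]
    exact ext_mono hR
  · unfold hh
    rw [finrank_R (K := K), finrank_ext W]
  · unfold tt
    rw [finrank_R (K := K), mul_ext, finrank_ext (Rd K n 1 * W : Submodule K (R K n))]

end Pool.Agent.EGN
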