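import Pool.Agent.EGN.Targets

set_option autoImplicit false
open MvPolynomial hiding R

/-!
# DEG: from ideals to systems of quadrics (EGN project)
-/

namespace Pool.Agent.EGN

open Pool.Agent.EGU Pool.Agent.EGS

universe u

/-- The target `T_DEG`. -/
theorem p_DEG : T_DEG.{u} := by
  intro K _ n I f hf hfI hreg
  have hCI : CI f (tw n) := t_reg K n f (tw n) (fun _ => by norm_num [tw]) hf hreg
  refine ⟨Rd K n 2 ⊓ Submodule.restrictScalars K I, ⟨f, hCI, ?_, inf_le_left⟩, rfl, ?_⟩
  · rintro p ⟨h1, h2⟩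
    refine ⟨h1, ?_⟩
    have h3 : J f ≤ I := Ideal.span_le.mpr (by rintro _ ⟨i, rfl⟩; exact hfI i)
    exact h3 h2
  · unfold tt
    refine Nat.sub_le_sub_left ?_ _
    have hfin : Module.Finite K (Rd K n 3) := (t_dimr K n 3).1
    have hfin2 : Module.Finite K ↥(Rd K n 3 ⊓ Submodule.restrictScalars K I) :=
      Submodule.finiteDimensional_of_le
        (inf_le_left : Rd K n 3 ⊓ Submodule.restrictScalars K I ≤ Rd K n 3)
    refine Submodule.finrank_mono ?_
    refine Submodule.mul_le.mpr fun p hp q hq => ⟨?_, ?_⟩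
    · have h1 : (p * q).IsHomogeneous (1 + 2) := MvPolynomial.IsHomogeneous.mul hp hq.1
      exact h1
    · exact I.mul_mem_left p hq.2

end Pool.Agent.EGN
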