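import Pool.Agent.EGN.Targets

set_option autoImplicit false
open MvPolynomial hiding R

/-!
# Project EGN, target ELM: elimination of a linear form
-/

namespace Pool.Agent.EGN

open Pool.Agent.EGU Pool.Agent.EGS

universe u

namespace ELM_

section

variable {K : Type u} [Field K] {n : ℕ}

/-- Finite dimension of the spaces of forms. -/
theorem fin (n d : ℕ) : Module.Finite K (Rd K n d) := (t_dimr K n d).1

/-- Constants. -/
theorem dim0 (n : ℕ) : Module.finrank K (Rd K n 0) = 1 := by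
  rw [(t_dimr K n 0).2.1, Finset.finsuppAntidiag_zero, Finset.card_singleton]

/-- Linear forms. -/
theorem dim1 (n : ℕ) : Module.finrank K (Rd K n 1) = n := (t_dimr K n 1).2.2

/-- Products of forms. -/
theorem mul_Rd {d e : ℕ} {p q : R K n} (hp : p ∈ Rd K n d) (hq : q ∈ Rd K n e) :
    p * q ∈ Rd K n (d + e) := by
  have h : (p * q).IsHomogeneous (d + e) := IsHomogeneous.mul hp hq
  exact h

/-- The kernel of the elimination map in degree `e + 1`. -/
theorem ker_el (c : Fin (n + 1) → K) (i0 : Fin (n + 1)) (h0 : c i0 ≠ 0) (e : ℕ)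
    (p : R K (n + 1)) (hp : p ∈ Rd K (n + 1) (e + 1)) (h : RED_.el c i0 p = 0) :
    ∃ x ∈ Rd K (n + 1) e, (∑ i, c i • (X i : R K (n + 1))) * x = p := by
  have h1 := RED_.sub_mem c i0 h0 p
  rw [h, map_zero, sub_zero, Ideal.mem_span_singleton'] at h1
  obtain ⟨q, hq⟩ := h1
  have hl : (∑ i, c i • (X i : R K (n + 1))).IsHomogeneous 1 := by
    have := RED_.sum_hom (1 : K) c
    rwa [one_smul] at this
  refine ⟨homogeneousComponent e q, homogeneousComponent_mem _ _, ?_⟩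
  have h2 := JD_homComp_mul q (∑ i, c i • (X i : R K (n + 1))) 1 hl (e + 1)
  rw [if_pos (by omega), hq, Nat.add_sub_cancel] at h2
  rw [mul_comm, ← h2]
  exact homogeneousComponent_eq_self hp

/-- The dimension formula. -/
theorem dim_el (φ : R K (n + 1) →ₗ[K] R K n) (l : R K (n + 1)) (hl0 : l ≠ 0) (e : ℕ)
    (hker : ∀ p ∈ Rd K (n + 1) (e + 1), φ p = 0 → ∃ x ∈ Rd K (n + 1) e, l * x = p)
    (hl : ∀ x, φ (l * x) = 0) (U : Submodule K (R K (n + 1)))
    (hU : U ≤ Rd K (n + 1) (e + 1)) :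
    Module.finrank K (U.map φ) + Module.finrank K
      (Rd K (n + 1) e ⊓ U.comap (LinearMap.mulLeft K l) : Submodule K (R K (n + 1))) =
      Module.finrank K U := by
  have fR : Module.Finite K (Rd K (n + 1) (e + 1)) := fin _ _
  have fU : Module.Finite K U := Submodule.finiteDimensional_of_le hU
  have a1 := SPLIT_.finrank_map_add φ U
  have hinj : Function.Injective (LinearMap.mulLeft K l : R K (n + 1) →ₗ[K] R K (n + 1)) := by
    intro x y hxy
    have h1 : l * x = l * y := hxy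
    exact mul_left_cancel₀ hl0 h1
  have e1 : (U ⊓ LinearMap.ker φ : Submodule K (R K (n + 1))) =
      (Rd K (n + 1) e ⊓ U.comap (LinearMap.mulLeft K l) : Submodule K (R K (n + 1))).map
        (LinearMap.mulLeft K l) := by
    apply le_antisymm
    · rintro p ⟨hp, hp'⟩
      obtain ⟨x, hx, rfl⟩ := hker p (hU hp) hp'
      exact ⟨x, ⟨hx, hp⟩, rfl⟩
    · rintro _ ⟨x, hx, rfl⟩
      exact ⟨hx.2, hl x⟩
  have e2 := (Submodule.equivMapOfInjective (LinearMap.mulLeft K l) hinj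
    (Rd K (n + 1) e ⊓ U.comap (LinearMap.mulLeft K l) : Submodule K (R K (n + 1)))).finrank_eq
  rw [e1, ← e2] at a1
  exact a1

/-- The case of all forms. -/
theorem dim_Rd (φ : R K (n + 1) →ₗ[K] R K n) (l : R K (n + 1)) (hl0 : l ≠ 0)
    (hl1 : l ∈ Rd K (n + 1) 1) (e : ℕ)
    (hdeg : ∀ d, ∀ p ∈ Rd K (n + 1) d, φ p ∈ Rd K n d)
    (hsurj : ∀ d, ∀ q ∈ Rd K n d, ∃ p ∈ Rd K (n + 1) d, φ p = q)
    (hker : ∀ p ∈ Rd K (n + 1) (e + 1), φ p = 0 → ∃ x ∈ Rd K (n + 1) e, l * x = p)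
    (hl : ∀ x, φ (l * x) = 0) :
    Module.finrank K (Rd K n (e + 1)) + Module.finrank K (Rd K (n + 1) e) =
      Module.finrank K (Rd K (n + 1) (e + 1)) := by
  have a1 := dim_el φ l hl0 e hker hl (Rd K (n + 1) (e + 1)) le_rfl
  have e1 : (Rd K (n + 1) e ⊓ (Rd K (n + 1) (e + 1)).comap (LinearMap.mulLeft K l) :
      Submodule K (R K (n + 1))) = Rd K (n + 1) e := by
    apply inf_eq_left.mpr
    intro x hx
    have h1 := mul_Rd hl1 hx
    rw [add_comm 1 e] at h1
    exact h1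
  rw [e1, TRW_.map_Rd φ hdeg hsurj (e + 1)] at a1
  exact a1

/-- The image of the regular sequence. -/
theorem ci_el (c : Fin (n + 1) → K) (i0 : Fin (n + 1)) (h0 : c i0 ≠ 0) (b : Fin n → ℕ)
    (g : Fin (n + 1) → R K (n + 1)) (hg : CI g (Fin.cons 1 b : Fin (n + 1) → ℕ))
    (hc : g 0 = ∑ i, c i • (X i : R K (n + 1))) :
    CI (fun i : Fin n => RED_.el c i0 (g i.succ)) b := by
  refine ⟨fun i => ?_, fun i => ?_, fun j p hp => ?_⟩
  · have := hg.pos i.succ
    rwa [Fin.cons_succ] at this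
  · have := hg.hom i.succ
    rw [Fin.cons_succ] at this
    exact RED_.el_deg c i0 _ _ this
  · have h1 : RED_.el c i0 (RED_.sc i0 p * g j.succ) ∈
        Ideal.span ((fun i : Fin n => RED_.el c i0 (g i.succ)) '' {i | i < j}) := by
      rw [map_mul, RED_.el_sc]
      exact hp
    have h2 := (RED_.iff_mem c i0 h0 g hc {i | i < j} (RED_.sc i0 p * g j.succ)).mpr h1
    rw [← RED_.img] at h2
    have h3 := hg.reg j.succ (RED_.sc i0 p) h2
    rw [RED_.img] at h3
    have h4 := (RED_.iff_mem c i0 h0 g hc {i | i < j} (RED_.sc i0 p)).mp h3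
    rwa [RED_.el_sc] at h4

end

end ELM_

open ELM_ in
/-- ELM. -/
theorem p_ELM : T_ELM.{u} := by
  intro K _ _ n W hW l hl hl0
  obtain ⟨f, hf, hfW, hW2⟩ := hW
  obtain ⟨g, hg0, hg, hgJ⟩ := p_RES p_ACY p_AVO K n f hf l hl hl0
  obtain ⟨c, hc⟩ := RED_.lin l hl
  obtain ⟨i0, h0⟩ : ∃ i0, c i0 ≠ 0 := by
    by_contra h
    push Not at h
    apply hl0
    rw [hc]
    exact Finset.sum_eq_zero fun i _ => by rw [h i, zero_smul]
  have hdeg : ∀ d, ∀ p ∈ Rd K (n + 1) d, (RED_.el c i0).toLinearMap p ∈ Rd K n d :=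
    fun d p hp => RED_.el_deg c i0 d p hp
  have hsurj : ∀ d, ∀ q ∈ Rd K n d, ∃ p ∈ Rd K (n + 1) d, (RED_.el c i0).toLinearMap p = q :=
    fun d q hq => ⟨RED_.sc i0 q, RED_.sc_deg i0 d q hq, RED_.el_sc c i0 q⟩
  have hker : ∀ e, ∀ p ∈ Rd K (n + 1) (e + 1), (RED_.el c i0).toLinearMap p = 0 →
      ∃ x ∈ Rd K (n + 1) e, l * x = p := by
    intro e p hp h
    rw [hc]
    exact ker_el c i0 h0 e p hp h
  have hlx : ∀ x, (RED_.el c i0).toLinearMap (l * x) = 0 := by
    intro x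
    change RED_.el c i0 (l * x) = 0
    rw [map_mul, hc, RED_.el_lin c i0 h0, zero_mul]
  have hR1W : (Rd K (n + 1) 1 * W : Submodule K (R K (n + 1))) ≤ Rd K (n + 1) 3 :=
    Submodule.mul_le.2 fun _ hx _ hw => mul_Rd (d := 1) (e := 2) hx (hW2 hw)
  have hW'2 : W.map (RED_.el c i0).toLinearMap ≤ Rd K n 2 := by
    rintro _ ⟨w, hw, rfl⟩
    exact hdeg 2 w (hW2 hw)
  have hR1W' : (Rd K n 1 * W.map (RED_.el c i0).toLinearMap : Submodule K (R K n)) ≤ Rd K n 3 :=
    Submodule.mul_le.2 fun _ hx _ hw => mul_Rd (d := 1) (e := 2) hx (hW'2 hw)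
  have a2 : Module.finrank K (Rd K n 2) + Module.finrank K (Rd K (n + 1) 1) =
      Module.finrank K (Rd K (n + 1) 2) :=
    dim_Rd (RED_.el c i0).toLinearMap l hl0 hl 1 hdeg hsurj (hker 1) hlx
  have a3 : Module.finrank K (Rd K n 3) + Module.finrank K (Rd K (n + 1) 2) =
      Module.finrank K (Rd K (n + 1) 3) :=
    dim_Rd (RED_.el c i0).toLinearMap l hl0 hl 2 hdeg hsurj (hker 2) hlx
  have b2 := dim_el (RED_.el c i0).toLinearMap l hl0 1 (hker 1) hlx W hW2
  have b3 := dim_el (RED_.el c i0).toLinearMap l hl0 2 (hker 2) hlx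
    (Rd K (n + 1) 1 * W : Submodule K (R K (n + 1))) hR1W
  have hs1 : soc W ≤ Rd K (n + 1) 1 := inf_le_left
  have b1 := dim_el (RED_.el c i0).toLinearMap l hl0 0 (hker 0) hlx (soc W) hs1
  rw [Submodule.map_mul, TRW_.map_Rd (RED_.el c i0).toLinearMap hdeg hsurj 1] at b3
  rw [dim1 (n + 1)] at a2
  have fR2 : Module.Finite K (Rd K (n + 1) 2) := fin _ _
  have fR3 : Module.Finite K (Rd K (n + 1) 3) := fin _ _
  have fS2 : Module.Finite K (Rd K n 2) := fin _ _
  have fS3 : Module.Finite K (Rd K n 3) := fin _ _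
  have fS1 : Module.Finite K (Rd K n 1) := fin _ _
  have fR0 : Module.Finite K (Rd K (n + 1) 0) := fin _ _
  have c2 := Submodule.finrank_mono hW2
  have c3 := Submodule.finrank_mono hR1W
  have c2' := Submodule.finrank_mono hW'2
  have c3' := Submodule.finrank_mono hR1W'
  refine ⟨W.map (RED_.el c i0).toLinearMap,
    ⟨fun i => RED_.el c i0 (g i.succ), ci_el c i0 h0 (tw n) g hg (hg0.trans hc), ?_, hW'2⟩,
    ?_, ?_, ?_⟩
  · intro p hp
    have h1 := ((t_jd K n n (fun i => RED_.el c i0 (g i.succ)) (tw n)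
      (ci_el c i0 h0 (tw n) g hg (hg0.trans hc)).hom).1 2 p).mp hp
    obtain ⟨y, hy, rfl⟩ := h1
    refine Submodule.sum_mem _ fun k _ => ?_
    have h2 : y k ∈ Rd K n 0 := by
      have := hy k
      unfold Rm at this
      rwa [if_pos le_rfl, Nat.sub_self] at this
    rw [Rd, homogeneousSubmodule_zero, Submodule.mem_one] at h2
    obtain ⟨a, ha⟩ := h2
    have h3 : g k.succ ∈ W := by
      refine hfW ⟨?_, hgJ k⟩
      have := hg.hom k.succ
      rwa [Fin.cons_succ] at this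
    refine ⟨a • g k.succ, Submodule.smul_mem _ _ h3, ?_⟩
    rw [← ha, ← Algebra.smul_def, map_smul]
    rfl
  · unfold hh kl
    omega
  · unfold tt ql
    omega
  · have d1 : Module.finrank K
        (Rd K (n + 1) 0 ⊓ (soc W).comap (LinearMap.mulLeft K l) :
          Submodule K (R K (n + 1))) ≤ 1 := by
      have := Submodule.finrank_mono (inf_le_left :
        (Rd K (n + 1) 0 ⊓ (soc W).comap (LinearMap.mulLeft K l) :
          Submodule K (R K (n + 1))) ≤ Rd K (n + 1) 0)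
      rwa [dim0] at this
    have hs2 : (soc W).map (RED_.el c i0).toLinearMap ≤
        soc (W.map (RED_.el c i0).toLinearMap) := by
      rintro _ ⟨u, hu, rfl⟩
      refine ⟨hdeg 1 u hu.1, ?_⟩
      rw [SetLike.mem_coe, Submodule.mem_iInf]
      rintro ⟨x, hx⟩
      obtain ⟨z, hz, hzx⟩ := hsurj 1 x hx
      have h4 := (Submodule.mem_iInf _).mp hu.2 ⟨z, hz⟩
      refine ⟨z * u, h4, ?_⟩
      change RED_.el c i0 (z * u) = x * RED_.el c i0 u
      rw [map_mul]
      congr 1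
    have fS : Module.Finite K (soc (W.map (RED_.el c i0).toLinearMap)) :=
      Submodule.finiteDimensional_of_le (inf_le_left :
        soc (W.map (RED_.el c i0).toLinearMap) ≤ Rd K n 1)
    have d2 := Submodule.finrank_mono hs2
    omega

end Pool.Agent.EGN
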