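import Pool.Agent.EGN.Targets

/-!
# Project EGN (MP_e5dae2_al): GrowthBound for quadrics in the language of systems (GBQ)
-/

set_option autoImplicit false
open MvPolynomial hiding R

namespace Pool.Agent.EGN

open Pool.Agent.EGU Pool.Agent.EGS

universe u

namespace GBQ_

variable {K : Type u} [Field K] {n : ℕ}

/-- every quadric `f k` lies in `J_2 f` -/
lemma mem_jd2 (f : Fin n → R K n) (hf : CI f (tw n)) (k : Fin n) : f k ∈ Jd f 2 :=
  ⟨hf.hom k, Ideal.subset_span ⟨k, rfl⟩⟩

/-- `J_3 f ≤ R_1 W` -/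
lemma jd3_le (f : Fin n → R K n) (hf : CI f (tw n)) (W : Submodule K (R K n))
    (h1 : Jd f 2 ≤ W) : Jd f 3 ≤ (Rd K n 1 * W : Submodule K (R K n)) := by
  intro p hp
  obtain ⟨y, hy, rfl⟩ := ((t_jd K n n f (tw n) hf.hom).1 3 p).1 hp
  refine Submodule.sum_mem _ fun k _ => ?_
  have h2 : y k ∈ Rd K n 1 := by
    have h3 := hy k
    unfold Rm at h3
    rw [if_pos (by show 2 ≤ 3; norm_num)] at h3
    exact h3
  exact Submodule.mul_mem_mul h2 (h1 (mem_jd2 f hf k))

/-- the numerical comparison -/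
lemma g_le (n v : ℕ) :
    g n v ≤ ∑ i ∈ Finset.range v, (n - (i + Pt (tw n) 2 (2 + i))) := by
  unfold g
  refine Finset.sum_le_sum fun i _ => ?_
  by_cases h : 2 + i ≤ n
  · rw [NU_.Pt_tw n 2 (2 + i) (by norm_num) h]
    omega
  · have h2 : n - (2 + 2 * i) = 0 := by omega
    rw [h2]
    exact Nat.zero_le _

end GBQ_

open GBQ_ in
theorem p_GBQ : T_GBQ.{u} := by
  intro K _ n W hW
  obtain ⟨f, hf, h1, h2⟩ := hW
  have e2 := NU_.hf K n f hf 2
  have e3 := NU_.hf K n f hf 3
  have f2 : Module.Finite K (Rd K n 2) := (t_dimr K n 2).1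
  have f3 : Module.Finite K (Rd K n 3) := (t_dimr K n 3).1
  have fW : Module.Finite K W := Submodule.finiteDimensional_of_le h2
  have a1 : Module.finrank K (Jd f 2) ≤ Module.finrank K W := Submodule.finrank_mono h1
  have a2 : Module.finrank K W ≤ Module.finrank K (Rd K n 2) := Submodule.finrank_mono h2
  obtain ⟨v, hv⟩ := Nat.exists_eq_add_of_le a1
  have h4 := a_grow K n f (tw n) hf (NU_.mono_tw n) 2 v W h1 h2 hv
  have h5 : up f 2 W = (Rd K n 1 * W : Submodule K (R K n)) := sup_eq_left.2 (jd3_le f hf W h1)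
  have h6 : up f 2 W ≤ Rd K n 3 := (t_upl K n n f (tw n) hf.hom 2 W h2).2.1
  rw [h5] at h4 h6
  have a3 : Module.finrank K (Rd K n 1 * W : Submodule K (R K n)) ≤
      Module.finrank K (Rd K n 3) := Submodule.finrank_mono h6
  have h7 := g_le n v
  have h8 : n.choose 2 - hh W = v := by
    unfold hh
    omega
  have h4' : Module.finrank K (Jd f 3) +
      ∑ i ∈ Finset.range v, (n - (i + Pt (tw n) 2 (2 + i))) ≤
      Module.finrank K (Rd K n 1 * W : Submodule K (R K n)) := h4
  refine ⟨?_, ?_⟩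
  · unfold hh
    omega
  · rw [h8]
    unfold tt
    omega

end Pool.Agent.EGN
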