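import Pool.Agent.EGN.Targets

/-!
# Project EGN (MP_e5dae2_al): the socle bound in degree 2 (helper97)
-/

set_option autoImplicit false
open MvPolynomial hiding R

namespace Pool.Agent.EGN

open Pool.Agent.EGU Pool.Agent.EGS

universe u

namespace SOQ_

variable {K : Type u} [Field K]

lemma hh_le (n : ℕ) (W : Submodule K (R K n)) (h : Sys K n W) : hh W ≤ n.choose 2 := by
  obtain ⟨f, hf, h1, h2⟩ := h
  have h3 := NU_.hf K n f hf 2
  have hfin : Module.Finite K (Rd K n 2) := (t_dimr K n 2).1
  have hWfin : Module.Finite K W := Submodule.finiteDimensional_of_le h2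
  have h4 : Module.finrank K (Jd f 2) ≤ Module.finrank K W := Submodule.finrank_mono h1
  unfold hh
  omega

lemma kl_soc {n : ℕ} (W : Submodule K (R K n)) (l : R K n) (hl : l ∈ soc W) :
    kl l W = Rd K n 1 := by
  unfold kl
  rw [inf_eq_left]
  intro x hx
  have h1 : l ∈ ⨅ y : Rd K n 1, W.comap (LinearMap.mulLeft K (y : R K n)) := hl.2
  rw [Submodule.mem_iInf] at h1
  have h2 : x * l ∈ W := h1 ⟨x, hx⟩
  show l * x ∈ W
  rw [mul_comm]
  exact h2

end SOQ_

open SOQ_ in
theorem p_SOQ (h : T_ELM.{u}) : T_SOQ.{u} := by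
  intro K _ _ n
  induction n with
  | zero =>
    intro W hW
    have h1 := hh_le 0 W hW
    have h2 : Nat.choose 0 2 = 0 := rfl
    rw [h2] at h1
    omega
  | succ n ih =>
    intro W hW
    by_cases h0 : Module.finrank K (soc W) = 0
    · rw [h0]
      simpa using hh_le (n + 1) W hW
    · have hne : soc W ≠ ⊥ := by
        intro hb
        rw [hb, finrank_bot] at h0
        exact h0 rfl
      obtain ⟨l, hl, hl0⟩ := Submodule.exists_mem_ne_zero_of_ne_bot hne
      have hl1 : l ∈ Rd K (n + 1) 1 := hl.1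
      obtain ⟨W', hW', e1, _, e3⟩ := h K n W hW l hl1 hl0
      rw [kl_soc W l hl, (t_dimr K (n + 1) 1).2.2] at e1
      have h2 := ih W' hW'
      have e4 : hh W = hh W' := by omega
      rw [e4]
      exact h2.trans (Nat.choose_le_choose 2 (by omega))

end Pool.Agent.EGN
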