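import Pool.Agent.EGN.Targets

set_option autoImplicit false
open MvPolynomial hiding R

/-!
# STP: one step of the elimination
-/

namespace Pool.Agent.EGN

open Pool.Agent.EGU Pool.Agent.EGS

universe u

noncomputable section

namespace STP_

section
variable {K : Type u} [Field K] {n : ℕ}

lemma fin_le {d : ℕ} {W : Submodule K (R K n)} (h : W ≤ Rd K n d) : Module.Finite K W := by
  have : Module.Finite K (Rd K n d) := (t_dimr K n d).1
  exact Submodule.finiteDimensional_of_le h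

lemma mem2 {p q : R K n} (hp : p ∈ Rd K n 1) (hq : q ∈ Rd K n 1) : p * q ∈ Rd K n 2 :=
  IsHomogeneous.mul hp hq

lemma mulLeft_inj {x : R K n} (hx : x ≠ 0) : Function.Injective (LinearMap.mulLeft K x) := by
  intro p q h
  simp only [LinearMap.mulLeft_apply] at h
  exact mul_left_cancel₀ hx h

lemma finrank_map (x : R K n) (hx : x ≠ 0) (W : Submodule K (R K n)) :
    Module.finrank K (W.map (LinearMap.mulLeft K x)) = Module.finrank K W :=
  (LinearEquiv.finrank_eq (Submodule.equivMapOfInjective _ (mulLeft_inj hx) W)).symm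

/-- the space `x R_1` -/
def xR (x : R K n) : Submodule K (R K n) := (Rd K n 1).map (LinearMap.mulLeft K x)

lemma inf_eq (x : R K n) (W : Submodule K (R K n)) :
    (kl x W).map (LinearMap.mulLeft K x) = W ⊓ xR x := by
  ext p
  simp only [kl, xR, Submodule.mem_map, Submodule.mem_inf, Submodule.mem_comap,
    LinearMap.mulLeft_apply]
  constructor
  · rintro ⟨y, ⟨h1, h2⟩, rfl⟩
    exact ⟨h2, y, h1, rfl⟩
  · rintro ⟨h1, y, h2, rfl⟩
    exact ⟨y, ⟨h2, h1⟩, rfl⟩

lemma le_ql {l : R K n} (hl : l ∈ Rd K n 1) {W : Submodule K (R K n)} (hW : W ≤ Rd K n 2) :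
    W ≤ ql l W := fun _ hw => ⟨hW hw, Submodule.mul_mem_mul hl hw⟩

lemma ql_le (l : R K n) (W : Submodule K (R K n)) : ql l W ≤ Rd K n 2 := inf_le_left

lemma kl_le (l : R K n) (W : Submodule K (R K n)) : kl l W ≤ Rd K n 1 := inf_le_left

lemma finrank_kl_le (l : R K n) (W : Submodule K (R K n)) : Module.finrank K (kl l W) ≤ n := by
  have : Module.Finite K (Rd K n 1) := (t_dimr K n 1).1
  have h := Submodule.finrank_mono (kl_le l W)
  rwa [(t_dimr K n 1).2.2] at h

end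

lemma first (h1 : T_ELM.{u}) {K : Type u} [Field K] [Infinite K] {n : ℕ}
    (W : Submodule K (R K (n + 1))) (hW : Sys K (n + 1) W)
    (hno : ∀ l ∈ Rd K (n + 1) 1, ∀ x ∈ Rd K (n + 1) 1, l ≠ 0 → x ≠ 0 → l * x ∉ W) :
    ∃ W' : Submodule K (R K n), Sys K n W' ∧ hh W = hh W' + (n + 1) ∧ tt W ≤ tt W' + hh W := by
  have hWR : W ≤ Rd K (n + 1) 2 := by
    obtain ⟨f, -, -, h⟩ := hW
    exact h
  have hl : (X 0 : R K (n + 1)) ∈ Rd K (n + 1) 1 := isHomogeneous_X K 0
  have hl0 : (X 0 : R K (n + 1)) ≠ 0 := X_ne_zero 0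
  obtain ⟨W', hW', e1, e2, -⟩ := h1 K n W hW (X 0) hl hl0
  have hk : kl (X 0) W = ⊥ := by
    rw [eq_bot_iff]
    intro x hx
    rw [Submodule.mem_bot]
    by_contra hx0
    exact hno _ hl x hx.1 hl0 hx0 hx.2
  rw [hk, finrank_bot, add_zero] at e1
  have f2 : Module.Finite K (Rd K (n + 1) 2) := (t_dimr K (n + 1) 2).1
  have f3 : Module.Finite K (ql (X 0) W) := fin_le (ql_le _ _)
  have a1 := Submodule.finrank_mono (le_ql hl hWR)
  have a2 := Submodule.finrank_mono (ql_le (X 0) W)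
  refine ⟨W', hW', e1.symm, ?_⟩
  unfold hh
  omega

lemma second (h1 : T_ELM.{u}) (h2 : T_SOQ.{u}) {K : Type u} [Field K] [Infinite K] {n : ℕ}
    (W : Submodule K (R K (n + 1))) (hW : Sys K (n + 1) W) (l x : R K (n + 1))
    (hl : l ∈ Rd K (n + 1) 1) (hx : x ∈ Rd K (n + 1) 1) (hl0 : l ≠ 0) (hx0 : x ≠ 0)
    (hlx : l * x ∈ W) (hle : Module.finrank K (kl x W) ≤ Module.finrank K (kl l W)) :
    ∃ (ρ : ℕ) (W' : Submodule K (R K n)), Sys K n W' ∧ hh W = hh W' + ρ ∧
      tt W ≤ tt W' + min (ρ.choose 2) (hh W - ρ) := by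
  obtain ⟨W', hW', e1, e2, -⟩ := h1 K n W hW l hl hl0
  obtain ⟨f, hf1, hf2, hWR⟩ := hW
  have f1 : Module.Finite K (Rd K (n + 1) 1) := (t_dimr K (n + 1) 1).1
  have f2 : Module.Finite K (Rd K (n + 1) 2) := (t_dimr K (n + 1) 2).1
  have fq : Module.Finite K (ql l W) := fin_le (ql_le _ _)
  have fW : Module.Finite K W := fin_le hWR
  have hk := finrank_kl_le l W
  have aq := Submodule.finrank_mono (ql_le l W)
  have aW := Submodule.finrank_mono hWR
  -- (i)
  have hX : xR x ≤ ql l W := by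
    rintro _ ⟨y, hy, rfl⟩
    refine ⟨mem2 hx hy, ?_⟩
    change l * (x * y) ∈ (Rd K (n + 1) 1 * W : Submodule K (R K (n + 1)))
    rw [show l * (x * y) = y * (l * x) by ring]
    exact Submodule.mul_mem_mul hy hlx
  have fX : Module.Finite K (xR x) := fin_le (hX.trans (ql_le _ _))
  have c1 := Submodule.finrank_sup_add_finrank_inf_eq W (xR x)
  rw [← inf_eq, finrank_map x hx0] at c1
  have c2 : Module.finrank K (xR x) = n + 1 := by
    unfold xR
    rw [finrank_map x hx0, (t_dimr K (n + 1) 1).2.2]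
  have c3 := Submodule.finrank_mono (sup_le (le_ql hl hWR) hX)
  -- (ii)
  have hU : Rd K (n + 1) 1 * kl l W ≤ ql l W := by
    rw [Submodule.mul_le]
    intro y hy u hu
    refine ⟨mem2 hy hu.1, ?_⟩
    change l * (y * u) ∈ (Rd K (n + 1) 1 * W : Submodule K (R K (n + 1)))
    rw [show l * (y * u) = y * (l * u) by ring]
    exact Submodule.mul_mem_mul hy hu.2
  have hW2 : W ⊔ Rd K (n + 1) 1 * kl l W ≤ ql l W := sup_le (le_ql hl hWR) hU
  have hS : Sys K (n + 1) (W ⊔ Rd K (n + 1) 1 * kl l W) :=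
    ⟨f, hf1, hf2.trans le_sup_left, hW2.trans (ql_le _ _)⟩
  have hsoc : kl l W ≤ soc (W ⊔ Rd K (n + 1) 1 * kl l W) := by
    intro u hu
    refine ⟨hu.1, ?_⟩
    rw [SetLike.mem_coe, Submodule.mem_iInf]
    intro y
    change (y : R K (n + 1)) * u ∈ W ⊔ Rd K (n + 1) 1 * kl l W
    exact Submodule.mem_sup_right (Submodule.mul_mem_mul y.2 hu)
  have fs : Module.Finite K (soc (W ⊔ Rd K (n + 1) 1 * kl l W)) := fin_le (d := 1) inf_le_left
  have d1 := Submodule.finrank_mono hsoc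
  have d2 := h2 K (n + 1) _ hS
  have d3 : (n + 1 - Module.finrank K (soc (W ⊔ Rd K (n + 1) 1 * kl l W))).choose 2 ≤
      (n + 1 - Module.finrank K (kl l W)).choose 2 := Nat.choose_le_choose 2 (by omega)
  have d4 := Submodule.finrank_mono hW2
  refine ⟨n + 1 - Module.finrank K (kl l W), W', hW', by omega, ?_⟩
  rw [← Nat.add_min_add_left]
  refine le_min ?_ ?_
  · unfold hh at d2
    omega
  · unfold hh
    omega

end STP_

open STP_ in
theorem p_STP (h1 : T_ELM.{u}) (h2 : T_SOQ.{u}) : T_STP.{u} := by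
  intro K _ _ n W hW
  by_cases h : ∀ l ∈ Rd K (n + 1) 1, ∀ x ∈ Rd K (n + 1) 1, l ≠ 0 → x ≠ 0 → l * x ∉ W
  · exact Or.inl (first h1 W hW h)
  · right
    push Not at h
    obtain ⟨l, hl, x, hx, hl0, hx0, hlx⟩ := h
    rcases le_total (Module.finrank K (kl x W)) (Module.finrank K (kl l W)) with hle | hle
    · exact second h1 h2 W hW l x hl hx hl0 hx0 hlx hle
    · exact second h1 h2 W hW x l hx hl hx0 hl0 (by rwa [mul_comm]) hle

end

end Pool.Agent.EGN
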