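import Pool.Agent.EGN.Targets

set_option autoImplicit false
open MvPolynomial hiding R

/-!
# Project EGN: assembly
-/

namespace Pool.Agent.EGN

open Pool.Agent.EGU Pool.Agent.EGS

universe u

noncomputable section

/-- All closure properties. -/
theorem clo (h1 : T_TBL) (h2 : T_EXT) (h3 : T_C2) (h4 : T_C1) (h5 : T_C0) : Clo F := by
  obtain ⟨-, -, t2, t1, t0, -, -⟩ := h1
  refine ⟨?_, h2.2.2, ?_, ?_, ?_⟩
  · unfold F
    rw [if_pos (by norm_num)]
    norm_num [tab]
  · intro h r hr1 hr2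
    rcases Nat.lt_or_ge 153 h with h' | h'
    · exact h3 h r h' hr1 hr2
    · exact t2 h r h' hr1 hr2
  · intro m h hm hm1 hm2 hm3
    rcases Nat.lt_or_ge 153 h with h' | h'
    · exact h4 m h h' hm1 hm2
    · exact t1 m h h' hm hm1 hm2 hm3
  · intro m h hm hm1 hm2
    rcases Nat.lt_or_ge 153 h with h' | h'
    · exact h5 m h h' hm1 hm2
    · exact t0 m h h' hm hm1 hm2

/-- The bound for all systems over any field. -/
theorem bound (h1 : T_TBL) (h2 : T_EXT) (h3 : T_C2) (h4 : T_C1) (h5 : T_C0) (hI : T_IND.{u})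
    (hB : T_BCH.{u}) (K : Type u) [Field K] (n : ℕ) (W : Submodule K (R K n)) (hW : Sys K n W) :
    8 * (tt W : ℤ) ≤ F (hh W) := by
  obtain ⟨W', hW', e1, e2⟩ := hB K (AlgebraicClosure K) n W hW
  have : Infinite (AlgebraicClosure K) := IsAlgClosed.instInfinite
  have h := hI F (clo h1 h2 h3 h4 h5) (AlgebraicClosure K) n W' hW'
  rwa [e1, e2] at h

/-- The theorem for a system. -/
theorem sys_bound (h1 : T_TBL) (h2 : T_EXT) (h3 : T_C2) (h4 : T_C1) (h5 : T_C0) (hI : T_IND.{u})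
    (hB : T_BCH.{u}) (hG : T_GBQ.{u}) (hL : T_LYM) (K : Type u) [Field K] (n : ℕ)
    (W : Submodule K (R K n)) (hW : Sys K n W) :
    (∀ m r : ℕ, 2 ≤ m → r ≤ m - 1 → hh W + r ≤ m.choose 2 → 8 * (tt W : ℤ) ≤ Psi m r) ∧
    3 * tt W + 2 * hh W ≤ n * hh W := by
  have hb := bound h1 h2 h3 h4 h5 hI hB K n W hW
  obtain ⟨g1, g2⟩ := hG K n W hW
  refine ⟨?_, ?_⟩
  · intro m r hm hr hmr
    have h6 : F (hh W) ≤ F (m.choose 2 - r) := h2.2.2 (by omega)
    exact hb.trans (h6.trans (h2.2.1 m r hm hr))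
  · rcases Nat.lt_or_ge n 2 with hn | hn
    · have h7 : n.choose 2 = 0 := Nat.choose_eq_zero_of_lt hn
      have h8 : n.choose 3 = 0 := Nat.choose_eq_zero_of_lt (by omega)
      have h9 : hh W = 0 := by omega
      have h10 : tt W = 0 := by omega
      rw [h9, h10]
      simp
    · have h7 := hL n (hh W) hn g1
      have h8 : 8 * (tt W : ℤ) ≤
          min (F (hh W)) (8 * ((n.choose 3 : ℤ) - (g n (n.choose 2 - hh W) : ℤ))) := by
        refine le_min hb ?_
        have : ((tt W + g n (n.choose 2 - hh W) : ℕ) : ℤ) ≤ (n.choose 3 : ℤ) := by exact_mod_cast g2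
        push_cast at this
        linarith
      have h9 : 24 * (tt W : ℤ) ≤ 8 * (((n - 2 : ℕ) : ℤ) * hh W) := by linarith
      have h10 : (((n - 2 : ℕ) : ℤ)) = (n : ℤ) - 2 := by omega
      rw [h10] at h9
      have h11 : 3 * (tt W : ℤ) + 2 * (hh W : ℤ) ≤ (n : ℤ) * hh W := by nlinarith
      exact_mod_cast h11

/-- `dim (R/I)_d`: the dimension of the image of the forms of degree `d` in `R/I`. -/
def HF {K : Type u} [Field K] {n : ℕ} (I : Ideal (MvPolynomial (Fin n) K)) (d : ℕ) : ℕ :=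
  Module.finrank K ((MvPolynomial.homogeneousSubmodule (Fin n) K d).map
    (Ideal.Quotient.mkₐ K I).toLinearMap)

theorem HF_eq {K : Type u} [Field K] {n : ℕ} (I : Ideal (MvPolynomial (Fin n) K)) (d : ℕ) :
    HF I d = Module.finrank K (Rd K n d) -
      Module.finrank K ↥(Rd K n d ⊓ Submodule.restrictScalars K I) := by
  have hfin : Module.Finite K (Rd K n d) := (t_dimr K n d).1
  set φ : R K n →ₗ[K] (R K n ⧸ I) := (Ideal.Quotient.mkₐ K I).toLinearMap with hφ
  have h1 := LinearMap.finrank_range_add_finrank_ker (φ.domRestrict (Rd K n d))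
  have h2 : LinearMap.range (φ.domRestrict (Rd K n d)) = (Rd K n d).map φ := by
    rw [LinearMap.domRestrict, LinearMap.range_comp, Submodule.range_subtype]
  have h3 : Module.finrank K (LinearMap.ker (φ.domRestrict (Rd K n d))) =
      Module.finrank K ↥(Rd K n d ⊓ Submodule.restrictScalars K I) := by
    have h4 : LinearMap.ker (φ.domRestrict (Rd K n d)) =
        (Submodule.restrictScalars K I).comap (Rd K n d).subtype := by
      ext x
      rw [LinearMap.mem_ker, Submodule.mem_comap, LinearMap.domRestrict_apply]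
      show Ideal.Quotient.mk I (x : R K n) = 0 ↔ _
      rw [Ideal.Quotient.eq_zero_iff_mem]
      rfl
    rw [h4]
    have h5 := LinearEquiv.finrank_eq (Submodule.comap_equiv_self_of_inj_of_le
      (f := (Rd K n d).subtype) (p := Rd K n d ⊓ Submodule.restrictScalars K I)
      (Submodule.injective_subtype _) (by rw [Submodule.range_subtype]; exact inf_le_left))
    have h6 : Submodule.comap (Rd K n d).subtype (Submodule.restrictScalars K I) =
        Submodule.comap (Rd K n d).subtype (Rd K n d ⊓ Submodule.restrictScalars K I) := by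
      ext x
      simp only [Submodule.mem_comap, Submodule.mem_inf]
      exact ⟨fun hx => ⟨x.2, hx⟩, fun hx => hx.2⟩
    rw [h6]
    exact h5
  rw [h2, h3] at h1
  show Module.finrank K ((Rd K n d).map φ) = _
  omega

/-- The theorem for ideals. -/
theorem fin (h1 : T_TBL) (h2 : T_EXT) (h3 : T_C2) (h4 : T_C1) (h5 : T_C0) (hI : T_IND.{u})
    (hB : T_BCH.{u}) (hG : T_GBQ.{u}) (hL : T_LYM) (hD : T_DEG.{u}) (K : Type u) [Field K] (n : ℕ)
    (I : Ideal (MvPolynomial (Fin n) K)) (f : Fin n → MvPolynomial (Fin n) K)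
    (hhom : ∀ i, (f i).IsHomogeneous 2) (hfI : ∀ i, f i ∈ I)
    (hreg : RingTheory.Sequence.IsRegular (MvPolynomial (Fin n) K) (List.ofFn f)) :
    (∀ m : ℕ, 2 ≤ m → HF I 2 ≤ m.choose 2 → HF I 3 ≤ m.choose 3 + 29) ∧
    (∀ m r : ℕ, 2 ≤ m → r + 1 ≤ m → HF I 2 + r ≤ m.choose 2 →
      8 * (HF I 3 : ℤ) + r * (4 * m - r + 2) ≤ 8 * m.choose 3 + 236 ∧
      8 * (HF I 3 : ℤ) + (-m ^ 2 + 6 * m * r - r ^ 2 - 4 * m - 4 * r + 5) ≤
        8 * m.choose 3 + 236) ∧
    3 * HF I 3 + 2 * HF I 2 ≤ n * HF I 2 := by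
  obtain ⟨W, hW, e1, e2⟩ := hD K n I f hhom hfI hreg
  rw [← HF_eq] at e1 e2
  obtain ⟨b1, b2⟩ := sys_bound h1 h2 h3 h4 h5 hI hB hG hL K n W hW
  rw [e1] at b1 b2
  have e2' : (HF I 3 : ℤ) ≤ (tt W : ℤ) := by exact_mod_cast e2
  refine ⟨?_, ?_, ?_⟩
  · intro m hm h
    have h6 := b1 m 0 hm (by omega) (by omega)
    unfold Psi at h6
    have h7 := le_max_left (qA m ((0 : ℕ) : ℤ)) (qB m ((0 : ℕ) : ℤ))
    have h8 : qA m ((0 : ℕ) : ℤ) = 0 := by simp [qA]
    rw [h8] at h6 h7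
    have h9 : 8 * (HF I 3 : ℤ) ≤ 8 * (m.choose 3 : ℤ) + 236 := by linarith
    omega
  · intro m r hm hr h
    have h6 := b1 m r hm (by omega) h
    unfold Psi at h6
    have h7 := le_max_left (qA (m : ℤ) (r : ℤ)) (qB m r)
    have h8 := le_max_right (qA (m : ℤ) (r : ℤ)) (qB m r)
    have h9 : qA (m : ℤ) (r : ℤ) = r * (4 * m - r + 2) := rfl
    have h10 : qB (m : ℤ) (r : ℤ) = -m ^ 2 + 6 * m * r - r ^ 2 - 4 * m - 4 * r + 5 := rfl
    rw [h9, h10] at h6 h7 h8
    constructor <;> linarith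
  · have h6 : 3 * HF I 3 ≤ 3 * tt W := by omega
    omega

end

end Pool.Agent.EGN
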