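import Pool.Agent.EGN.Targets

set_option autoImplicit false

/-!
# Project EGN, target C0
-/

namespace Pool.Agent.EGN

namespace C0_

lemma g_succ (m r : ℕ) : g m (r + 1) = g m r + (m - (2 + 2 * r)) := by
  unfold g
  rw [Finset.sum_range_succ]

lemma g_eq (m r : ℕ) (h : 2 * r ≤ m) : (g m r : ℤ) = r * (m - 1 - r) := by
  induction r with
  | zero => simp [g]
  | succ r ih =>
    have h1 := ih (by omega)
    rw [g_succ]
    have h2 : ((m - (2 + 2 * r) : ℕ) : ℤ) = (m : ℤ) - (2 + 2 * r) := by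
      rw [Nat.cast_sub (by omega)]
      push_cast
      ring
    push_cast [h1]
    rw [h2]
    ring

lemma g_mono (m : ℕ) {r s : ℕ} (h : r ≤ s) : g m r ≤ g m s := by
  unfold g
  exact Finset.sum_le_sum_of_subset (Finset.range_mono h)

/-- The inequality of the first alternative. -/
lemma first (m r : ℕ) (hm : 19 ≤ m) (h : qB m r < qA m r) :
    qA m r ≤ 8 * (g m r : ℤ) + 236 := by
  unfold qA qB at *
  by_cases h2 : 2 * r ≤ m
  · rw [g_eq m r h2]
    have h3 : (2 : ℤ) * r ≤ m := by exact_mod_cast h2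
    have h4 : (0 : ℤ) ≤ r := by positivity
    nlinarith [mul_nonneg h4 (sub_nonneg.mpr h3), sq_nonneg ((r : ℤ) - 5)]
  · rcases Nat.even_or_odd' m with ⟨a, rfl | rfl⟩
    · have h3 : g (2 * a) a ≤ g (2 * a) r := g_mono _ (by omega)
      have h4 := g_eq (2 * a) a le_rfl
      have h5 : (g (2 * a) a : ℤ) ≤ g (2 * a) r := by exact_mod_cast h3
      push_cast at *
      have ha : (10 : ℤ) ≤ a := by
        have : 10 ≤ a := by omega
        exact_mod_cast this
      have hr : (r : ℤ) ≤ a + 3 := by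
        by_contra hc
        push Not at hc
        have hc' : (a : ℤ) + 4 ≤ r := by omega
        nlinarith [mul_le_mul_of_nonneg_left hc' (show (0 : ℤ) ≤ 4 * a - 6 by linarith)]
      have h6 : (0 : ℤ) ≤ (a + 3 - r) * (7 * a - 1 - r) :=
        mul_nonneg (by linarith) (by linarith)
      nlinarith [sq_nonneg ((a : ℤ) - 14)]
    · have h3 : g (2 * a + 1) a ≤ g (2 * a + 1) r := g_mono _ (by omega)
      have h4 := g_eq (2 * a + 1) a (by omega)
      have h5 : (g (2 * a + 1) a : ℤ) ≤ g (2 * a + 1) r := by exact_mod_cast h3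
      push_cast at *
      have ha : (9 : ℤ) ≤ a := by
        have : 9 ≤ a := by omega
        exact_mod_cast this
      have hr : (r : ℤ) ≤ a + 4 := by
        by_contra hc
        push Not at hc
        have hc' : (a : ℤ) + 5 ≤ r := by omega
        nlinarith [mul_le_mul_of_nonneg_left hc' (show (0 : ℤ) ≤ 4 * a - 4 by linarith)]
      have h6 : (0 : ℤ) ≤ (a + 4 - r) * (7 * a + 2 - r) :=
        mul_nonneg (by linarith) (by linarith)
      nlinarith [sq_nonneg ((a : ℤ) - 15)]

end C0_

open C0_ in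
theorem p_C0 (_h1 : T_TBL) (h2 : T_EXT) : T_C0 := by
  obtain ⟨e1, e2, -⟩ := h2
  intro m h h153 hlo hhi
  have hm : 19 ≤ m := by
    by_contra hc
    have hc' : m ≤ 18 := by omega
    have h3 : m.choose 2 ≤ (18 : ℕ).choose 2 := Nat.choose_le_choose 2 hc'
    have h4 : (18 : ℕ).choose 2 = 153 := by decide
    omega
  obtain ⟨k, rfl⟩ : ∃ k, m = k + 2 := ⟨m - 2, by omega⟩
  have c1 : (k + 2).choose 2 = (k + 1) + (k + 1).choose 2 := by
    rw [Nat.choose_succ_succ' (k + 1) 1, Nat.choose_one_right]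
  have c2 : (k + 1).choose 2 = k + k.choose 2 := by
    rw [Nat.choose_succ_succ' k 1, Nat.choose_one_right]
  have c3 : (k + 2).choose 3 = (k + 1).choose 2 + (k + 1).choose 3 :=
    Nat.choose_succ_succ' (k + 1) 2
  have c4 : (k + 1).choose 3 = k.choose 2 + k.choose 3 := Nat.choose_succ_succ' k 2
  have hk1 : k + 2 - 1 = k + 1 := by omega
  rw [hk1] at hlo
  obtain ⟨r, hr⟩ : ∃ r, h + r = (k + 2).choose 2 := ⟨(k + 2).choose 2 - h, by omega⟩
  have hrk : r ≤ k := by omega
  have hsub : (k + 2).choose 2 - h = r := by omega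
  have hsub2 : (k + 2).choose 2 - r = h := by omega
  have hF : F h = Psi (k + 2) r := by
    rw [← hsub2]
    exact e1 (k + 2) r hm (by omega)
  by_cases hq : qA ((k + 2 : ℕ) : ℤ) r ≤ qB ((k + 2 : ℕ) : ℤ) r
  · right
    intro _
    rw [hF]
    have hmax : max (qA ((k + 2 : ℕ) : ℤ) r) (qB ((k + 2 : ℕ) : ℤ) r) =
        qB ((k + 2 : ℕ) : ℤ) r := max_eq_right hq
    by_cases hrk' : r = k
    · subst hrk'
      have h5 : h - (r + 2) = r.choose 2 - 1 := by omega
      have h6 := e2 r 1 (by omega) (by omega)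
      rw [h5]
      have h7 : qA (r : ℤ) ((1 : ℕ) : ℤ) ≤ max (qA (r : ℤ) ((1 : ℕ) : ℤ)) (qB (r : ℤ) ((1 : ℕ) : ℤ)) :=
        le_max_left _ _
      unfold Psi at *
      rw [hmax]
      have h8 : (2 : ℤ) * (r.choose 2 : ℤ) = r * (r - 1) := by
        have h9 := Nat.choose_two_right r
        have h10 : 2 ∣ r * (r - 1) := (Nat.even_mul_pred_self r).two_dvd
        have h11 : 2 * r.choose 2 = r * (r - 1) := by
          rw [h9]
          exact Nat.mul_div_cancel' h10
        have h12 : (2 : ℤ) * (r.choose 2 : ℤ) = ((r * (r - 1) : ℕ) : ℤ) := by exact_mod_cast h11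
        rw [h12, Nat.cast_mul, Nat.cast_sub (by omega)]
        push_cast
        ring
      have h13 : (h : ℤ) = (r + 1).choose 2 + 1 := by
        have : h = (r + 1).choose 2 + 1 := by omega
        exact_mod_cast this
      rw [h13, c3, c4, c2]
      unfold qA qB at *
      push_cast at *
      nlinarith
    · have h5 : h - (k + 2) = (k + 1).choose 2 - (r + 1) := by omega
      have h6 := e2 (k + 1) (r + 1) (by omega) (by omega)
      rw [h5]
      have h7 : qB ((k + 1 : ℕ) : ℤ) ((r + 1 : ℕ) : ℤ) ≤ max (qA ((k + 1 : ℕ) : ℤ) ((r + 1 : ℕ) : ℤ))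
          (qB ((k + 1 : ℕ) : ℤ) ((r + 1 : ℕ) : ℤ)) := le_max_right _ _
      unfold Psi at *
      rw [hmax]
      have h13 : (h : ℤ) = (k + 1).choose 2 + (k + 1) - r := by
        have : (h : ℤ) + r = ((k + 2).choose 2 : ℕ) := by exact_mod_cast hr
        rw [c1] at this
        push_cast at this
        linarith
      rw [h13, c3]
      have h14 : qB ((k + 1 : ℕ) : ℤ) ((r + 1 : ℕ) : ℤ) = qB ((k + 2 : ℕ) : ℤ) r +
          8 * (k + 1 - r) := by
        unfold qB
        push_cast
        ring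
      push_cast at *
      linarith
  · left
    push Not at hq
    rw [hF, hsub]
    have h5 := first (k + 2) r hm hq
    unfold Psi
    rw [max_eq_left hq.le]
    linarith

end Pool.Agent.EGN
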