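import Pool.Agent.EGN.Targets

/-!
# MP_e5dae2_al, EGN: EXT (helper65)
-/

set_option autoImplicit false

namespace Pool.Agent.EGN

namespace EXT_

/-- Pascal, degree 2. -/
theorem ch2 {m : ℕ} (hm : 1 ≤ m) : m.choose 2 = (m - 1).choose 2 + (m - 1) := by
  obtain ⟨k, rfl⟩ : ∃ k, m = k + 1 := ⟨m - 1, by omega⟩
  rw [Nat.choose_succ_succ' k 1, Nat.choose_one_right]
  simp [Nat.add_comm]

/-- Pascal, degree 3. -/
theorem ch3 {m : ℕ} (hm : 1 ≤ m) : m.choose 3 = (m - 1).choose 3 + (m - 1).choose 2 := by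
  obtain ⟨k, rfl⟩ : ∃ k, m = k + 1 := ⟨m - 1, by omega⟩
  rw [Nat.choose_succ_succ' k 2]
  simp [Nat.add_comm]

theorem two_ch {m : ℕ} : 2 * (m.choose 2 : ℤ) = m * (m - 1) := by
  induction m with
  | zero => simp
  | succ n ih =>
    have h : (n + 1).choose 2 = n + n.choose 2 := by
      rw [Nat.choose_succ_succ' n 1, Nat.choose_one_right]
    rw [h]
    push_cast
    linarith

theorem mono2 {a b : ℕ} (h : a ≤ b) : a.choose 2 ≤ b.choose 2 := Nat.choose_le_choose 2 h

/-- `mm h = m` if `C(m-1,2) < h ≤ C(m,2)`. -/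
theorem mm_eq {m h : ℕ} (h1 : (m - 1).choose 2 < h) (h2 : h ≤ m.choose 2) : mm h = m := by
  unfold mm
  rw [Nat.find_eq_iff]
  refine ⟨h2, ?_⟩
  intro k hk hk'
  have := mono2 (show k ≤ m - 1 by omega)
  omega

theorem ge19 {m : ℕ} (h : 153 < m.choose 2) : 19 ≤ m := by
  by_contra hc
  have h1 := mono2 (show m ≤ 18 by omega)
  have h2 : (18 : ℕ).choose 2 = 153 := by decide
  omega

theorem c19 {m : ℕ} (h : 19 ≤ m) : 153 ≤ (m - 1).choose 2 := by
  have h1 := mono2 (show 18 ≤ m - 1 by omega)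
  have h2 : (18 : ℕ).choose 2 = 153 := by decide
  omega

theorem part1 {m r : ℕ} (hm : 19 ≤ m) (hr : r ≤ m - 2) : F (m.choose 2 - r) = Psi m r := by
  have h1 := ch2 (show 1 ≤ m by omega)
  have h2 := c19 hm
  have h3 : mm (m.choose 2 - r) = m := mm_eq (by omega) (by omega)
  have h4 : ¬ (m.choose 2 - r ≤ 153) := by omega
  unfold F
  rw [if_neg h4, h3]
  congr 1
  omega

theorem psi_step {m r : ℕ} (h0 : 1 ≤ m) (hr : r ≤ m) : Psi m (r + 1) ≤ Psi m r := by
  have hrm : (r : ℤ) ≤ m := by exact_mod_cast hr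
  have hr0 : (0 : ℤ) ≤ r := by positivity
  have hm1 : (1 : ℤ) ≤ m := by exact_mod_cast h0
  have hA : qA m r ≤ qA m ((r + 1 : ℕ) : ℤ) := by
    unfold qA
    push_cast
    nlinarith
  have hB : qB m r ≤ qB m ((r + 1 : ℕ) : ℤ) ∨ qB m r ≤ qA m ((r + 1 : ℕ) : ℤ) := by
    by_cases hc : 5 ≤ 6 * (m : ℤ) - 2 * r
    · left
      unfold qB
      push_cast
      nlinarith
    · right
      unfold qB qA
      push_cast
      nlinarith
  have : max (qA m r) (qB m r) ≤ max (qA m ((r + 1 : ℕ) : ℤ)) (qB m ((r + 1 : ℕ) : ℤ)) := by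
    apply max_le
    · exact le_max_of_le_left hA
    · rcases hB with h | h
      · exact le_max_of_le_right h
      · exact le_max_of_le_left h
  unfold Psi
  linarith

theorem part2 (h : T_TBL) {m r : ℕ} (hm : 2 ≤ m) (hr : r ≤ m - 1) :
    F (m.choose 2 - r) ≤ Psi m r := by
  by_cases hc : m.choose 2 - r ≤ 153
  · exact h.2.1 m r hm hr (by omega)
  · have h19 := ge19 (m := m) (by omega)
    by_cases hr2 : r ≤ m - 2
    · exact (part1 h19 hr2).le
    · have hr3 : r = m - 1 := by omega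
      subst hr3
      have h1 := ch2 (show 1 ≤ m by omega)
      have h2 : m.choose 2 - (m - 1) = (m - 1).choose 2 - 0 := by omega
      have h3 := ge19 (m := m - 1) (by omega)
      rw [h2, part1 h3 (by omega)]
      have h4 := ch3 (show 1 ≤ m by omega)
      have h5 : (m.choose 3 : ℤ) = ((m - 1).choose 3 : ℤ) + ((m - 1).choose 2 : ℤ) := by
        exact_mod_cast h4
      have h6 := two_ch (m := m - 1)
      have h7 : ((m - 1 : ℕ) : ℤ) = (m : ℤ) - 1 := by
        rw [Nat.cast_sub (by omega)]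
        rfl
      have hmz : (20 : ℤ) ≤ m := by
        have : 20 ≤ m := by omega
        exact_mod_cast this
      have hA : qA m ((m - 1 : ℕ) : ℤ) ≤ 4 * (((m : ℤ) - 1) * ((m : ℤ) - 2)) := by
        rw [h7]
        unfold qA
        nlinarith
      have hB : qB m ((m - 1 : ℕ) : ℤ) ≤ 4 * (((m : ℤ) - 1) * ((m : ℤ) - 2)) := by
        rw [h7]
        unfold qB
        nlinarith
      have hM := max_le hA hB
      have h0 : (0 : ℤ) ≤ max (qA ((m - 1 : ℕ) : ℤ) ((0 : ℕ) : ℤ)) (qB ((m - 1 : ℕ) : ℤ) ((0 : ℕ) : ℤ)) := by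
        apply le_max_of_le_left
        simp [qA]
      rw [h7] at h6
      unfold Psi
      rw [h5]
      nlinarith

theorem part3 (h : T_TBL) : Monotone F := by
  apply monotone_nat_of_le_succ
  intro n
  by_cases hn : n + 1 ≤ 153
  · have h1 := h.1 n (by omega)
    have h2 : ((tab.getD n 0 : ℕ) : ℤ) ≤ ((tab.getD (n + 1) 0 : ℕ) : ℤ) := by exact_mod_cast h1
    unfold F
    rw [if_pos (show n ≤ 153 by omega), if_pos hn]
    linarith
  · have hx := Nat.find_spec (ex_mm (n + 1))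
    set m := Nat.find (ex_mm (n + 1)) with hmdef
    have h19 := ge19 (m := m) (by omega)
    have hlt : (m - 1).choose 2 < n + 1 := by
      have := Nat.find_min (ex_mm (n + 1)) (show m - 1 < Nat.find (ex_mm (n + 1)) by omega)
      omega
    have h1 := ch2 (show 1 ≤ m by omega)
    obtain ⟨r, hr⟩ : ∃ r, r = m.choose 2 - (n + 1) := ⟨_, rfl⟩
    have e1 : n + 1 = m.choose 2 - r := by omega
    have e2 : n = m.choose 2 - (r + 1) := by omega
    have p1 := part1 (m := m) (r := r) h19 (by omega)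
    have p2 := part2 h (m := m) (r := r + 1) (by omega) (by omega)
    have p3 := psi_step (m := m) (r := r) (by omega) (by omega)
    rw [← e1] at p1
    rw [← e2] at p2
    rw [p1]
    exact p2.trans p3

end EXT_

theorem p_EXT (h : T_TBL) : T_EXT :=
  ⟨fun _ _ hm hr => EXT_.part1 hm hr, fun _ _ hm hr => EXT_.part2 h hm hr, EXT_.part3 h⟩

end Pool.Agent.EGN
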