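import Pool.Agent.EGN.Targets

/-!
# MP_e5dae2_al, EGN: LYM (helper49)
-/

set_option autoImplicit false

namespace Pool.Agent.EGN

namespace LYM_

theorem two_choose (n : ℕ) : 2 * (n.choose 2 : ℤ) = n * (n - 1) := by
  induction n with
  | zero => simp
  | succ n ih =>
    have h : (n + 1).choose 2 = n + n.choose 2 := by
      rw [Nat.choose_succ_succ' n 1, Nat.choose_one_right]
    rw [h]
    push_cast
    linarith

theorem three_choose {n : ℕ} (hn : 2 ≤ n) :
    3 * (n.choose 3 : ℤ) = ((n : ℤ) - 2) * (n.choose 2 : ℤ) := by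
  have h := Nat.choose_succ_right_eq n 2
  have h2 : ((n - 2 : ℕ) : ℤ) = (n : ℤ) - 2 := by
    rw [Nat.cast_sub hn]
    rfl
  have h3 : ((n.choose 3 * 3 : ℕ) : ℤ) = ((n.choose 2 * (n - 2) : ℕ) : ℤ) := by
    exact_mod_cast h
  rw [Nat.cast_mul, Nat.cast_mul, h2] at h3
  push_cast at h3
  linarith

theorem g_eq {n : ℕ} : ∀ r : ℕ, 2 * r ≤ n → (g n r : ℤ) = r * (n - 1 - r) := by
  intro r
  induction r with
  | zero => intro _; simp [g]
  | succ r ih =>
    intro hr
    have h1 : g n (r + 1) = g n r + (n - (2 + 2 * r)) := by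
      simp [g, Finset.sum_range_succ]
    have h2 : ((n - (2 + 2 * r) : ℕ) : ℤ) = (n : ℤ) - (2 + 2 * r) := by
      rw [Nat.cast_sub (by omega)]
      push_cast
      ring
    rw [h1, Nat.cast_add, ih (by omega), h2]
    push_cast
    ring

theorem g_mono {n r s : ℕ} (h : r ≤ s) : g n r ≤ g n s := by
  unfold g
  exact Finset.sum_le_sum_of_subset (Finset.range_mono h)

theorem g_large {n r : ℕ} (h : n ≤ 2 * r) : (n : ℤ) * (n - 2) ≤ 4 * (g n r : ℤ) := by
  have h1 : g n (n / 2) ≤ g n r := g_mono (by omega)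
  have h2 := g_eq (n := n) (n / 2) (by omega)
  have h3 : (g n (n / 2) : ℤ) ≤ g n r := by exact_mod_cast h1
  rcases Nat.even_or_odd' n with ⟨k, hk | hk⟩
  · have h4 : n / 2 = k := by omega
    rw [h4] at h2 h3
    rw [h2] at h3
    have h5 : (n : ℤ) = 2 * k := by exact_mod_cast hk
    rw [h5] at h3 ⊢
    nlinarith
  · have h4 : n / 2 = k := by omega
    rw [h4] at h2 h3
    rw [h2] at h3
    have h5 : (n : ℤ) = 2 * k + 1 := by exact_mod_cast hk
    rw [h5] at h3 ⊢
    nlinarith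

theorem tab_small : ∀ h : ℕ, h ≤ 153 → 3 * tab.getD h 0 ≤ 17 * h := by
  have h1 : ∀ h : Fin 154, 3 * tab.getD h.1 0 ≤ 17 * h.1 := by decide +kernel
  intro h hh
  exact h1 ⟨h, by omega⟩

theorem block {h : ℕ} (hh : 153 < h) :
    ∃ m r : ℕ, 19 ≤ m ∧ r ≤ m - 2 ∧ h + r = m.choose 2 ∧ (m - 1).choose 2 < h := by
  have h1 : h ≤ (mm h).choose 2 := Nat.find_spec (ex_mm h)
  have h2 : 19 ≤ mm h := by
    by_contra hc
    have h3 : (mm h).choose 2 ≤ (18).choose 2 := Nat.choose_le_choose 2 (by omega)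
    have h4 : (18).choose 2 = 153 := by decide
    omega
  have h5 : (mm h - 1).choose 2 < h := by
    by_contra hc
    exact Nat.find_min (ex_mm h) (m := mm h - 1) (by
      show mm h - 1 < mm h
      omega) (by omega)
  have h6 : (mm h).choose 2 = (mm h - 1) + (mm h - 1).choose 2 := by
    obtain ⟨k, hk⟩ : ∃ k, mm h = k + 1 := ⟨mm h - 1, by omega⟩
    rw [hk, Nat.choose_succ_succ' k 1, Nat.choose_one_right, Nat.add_sub_cancel]
  exact ⟨mm h, (mm h).choose 2 - h, h2, by omega, by omega, h5⟩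

end LYM_

open LYM_

theorem p_LYM (h1 : T_TBL) (h2 : T_EXT) : T_LYM := by
  obtain ⟨-, -, -, -, -, -, t7⟩ := h1
  obtain ⟨e1, -, -⟩ := h2
  intro n h hn hh
  by_cases hn18 : n ≤ 18
  · exact t7 n h hn hn18 hh
  have hn19 : 19 ≤ n := by omega
  have hn19' : (19 : ℤ) ≤ n := by exact_mod_cast hn19
  have hc : ((n - 2 : ℕ) : ℤ) = (n : ℤ) - 2 := by
    rw [Nat.cast_sub hn]
    rfl
  rw [hc]
  by_cases h153 : h ≤ 153
  · have hF : F h = 8 * (tab.getD h 0 : ℤ) := by
      unfold F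
      rw [if_pos h153]
    have ht : 3 * (tab.getD h 0 : ℤ) ≤ 17 * h := by exact_mod_cast tab_small h h153
    have hm := min_le_left (F h) (8 * ((n.choose 3 : ℤ) - (g n (n.choose 2 - h) : ℤ)))
    rw [hF] at hm
    rw [hF]
    have h0 : (0 : ℤ) ≤ h := by positivity
    nlinarith
  obtain ⟨m, r, hm, hr, hhr, hlt⟩ := block (h := h) (by omega)
  have hF : F h = Psi m r := by
    have h3 := e1 m r hm hr
    rw [← h3]
    congr 1
    omega
  have hmn : m ≤ n := by
    by_contra hc2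
    have h3 : n.choose 2 ≤ (m - 1).choose 2 := Nat.choose_le_choose 2 (by omega)
    omega
  have hm' : (19 : ℤ) ≤ m := by exact_mod_cast hm
  have hr' : (r : ℤ) ≤ m - 2 := by
    have h3 : r + 2 ≤ m := by omega
    have h4 : ((r + 2 : ℕ) : ℤ) ≤ m := by exact_mod_cast h3
    push_cast at h4
    linarith
  have hr0 : (0 : ℤ) ≤ r := by positivity
  have hhr' : (h : ℤ) = (m.choose 2 : ℤ) - r := by
    have h3 : ((h + r : ℕ) : ℤ) = (m.choose 2 : ℤ) := by exact_mod_cast hhr
    push_cast at h3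
    linarith
  have c2 := two_choose m
  have c3 := three_choose (n := m) (by omega)
  have hA : (r : ℤ) * (4 * m - r + 2) ≤ max (qA m r) (qB m r) := le_max_left _ _
  have hB : -(m : ℤ) ^ 2 + 6 * m * r - r ^ 2 - 4 * m - 4 * r + 5 ≤ max (qA m r) (qB m r) :=
    le_max_right _ _
  have hPsi : Psi m r = 8 * (m.choose 3 : ℤ) - max (qA m r) (qB m r) + 236 := rfl
  generalize max (qA m r) (qB m r) = M at hA hB hPsi
  rcases Nat.lt_or_ge m n with hlt2 | hge
  · -- the case of a smaller block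
    have hm2 := min_le_left (F h) (8 * ((n.choose 3 : ℤ) - (g n (n.choose 2 - h) : ℤ)))
    have hP : 3 * Psi m r ≤ 8 * (((m : ℤ) - 1) * h) := by
      rw [hPsi, hhr']
      have hX : 8 * (((m : ℤ) - 1) * ((m.choose 2 : ℤ) - r)) -
          3 * (8 * (m.choose 3 : ℤ) - M + 236) =
          4 * m * (m - 1) - 8 * (m - 1) * r + 3 * M - 708 := by
        linear_combination (-8) * c3 + 4 * c2
      have h6 := mul_nonneg hr0 (by linarith : (0 : ℤ) ≤ 4 * m + 14 - 3 * r)
      have h7 := mul_nonneg (by linarith : (0 : ℤ) ≤ (m : ℤ) - 19)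
        (by linarith : (0 : ℤ) ≤ (m : ℤ) + 18)
      have h8 : (0 : ℤ) ≤ 4 * m * (m - 1) - 8 * (m - 1) * r + 3 * M - 708 := by
        linarith [h6, h7, hA]
      linarith
    have hmn' : (m : ℤ) - 1 ≤ (n : ℤ) - 2 := by
      have h3 : m + 1 ≤ n := hlt2
      have h4 : ((m + 1 : ℕ) : ℤ) ≤ n := by exact_mod_cast h3
      push_cast at h4
      linarith
    have h0 : (0 : ℤ) ≤ h := by positivity
    have h5 : ((m : ℤ) - 1) * h ≤ ((n : ℤ) - 2) * h := mul_le_mul_of_nonneg_right hmn' h0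
    rw [hF] at hm2 ⊢
    linarith
  · have hmn2 : m = n := le_antisymm hmn hge
    subst hmn2
    have hv : m.choose 2 - h = r := by omega
    rw [hv]
    have hX : 8 * (((m : ℤ) - 2) * ((m.choose 2 : ℤ) - r)) =
        24 * (m.choose 3 : ℤ) - 8 * ((m - 2) * r) := by
      linear_combination (-8) * c3
    by_cases hs : 4 * r ≤ 3 * m
    · have hm2 := min_le_right (F h) (8 * ((m.choose 3 : ℤ) - (g m r : ℤ)))
      have hg : ((m : ℤ) - 2) * r ≤ 3 * (g m r : ℤ) := by
        by_cases h2r : 2 * r ≤ m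
        · rw [g_eq r h2r]
          have h2r' : 2 * (r : ℤ) ≤ m := by exact_mod_cast h2r
          nlinarith [mul_nonneg hr0 (by linarith : (0 : ℤ) ≤ 2 * m - 1 - 3 * r)]
        · have h3 := g_large (n := m) (r := r) (by omega)
          have hs' : 4 * (r : ℤ) ≤ 3 * m := by exact_mod_cast hs
          nlinarith [mul_nonneg (by linarith : (0 : ℤ) ≤ (m : ℤ) - 2)
            (by linarith : (0 : ℤ) ≤ 3 * (m : ℤ) - 4 * r)]
      rw [hhr', hX]
      linarith
    · have hm2 := min_le_left (F h) (8 * ((m.choose 3 : ℤ) - (g m r : ℤ)))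
      have hs' : 3 * (m : ℤ) ≤ 4 * r := by
        have : 3 * m ≤ 4 * r := by omega
        exact_mod_cast this
      rw [hF] at hm2
      have h6 := mul_nonneg (by linarith : (0 : ℤ) ≤ (m : ℤ) - 19)
        (by linarith : (0 : ℤ) ≤ 45 * (m : ℤ) + 711)
      have h7 := mul_nonneg (by linarith : (0 : ℤ) ≤ 4 * (r : ℤ) - 3 * m)
        (by linarith : (0 : ℤ) ≤ 22 * (m : ℤ) - 3 * (4 * (r : ℤ) - 3 * m))
      have h8 : 8 * (((m : ℤ) - 2) * r) + 708 ≤ 3 * M := by
        linarith [h6, h7, hB]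
      rw [hF, hhr', hX]
      rw [hPsi] at hm2 ⊢
      linarith

end Pool.Agent.EGN
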