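import Pool.Agent.EGN.Targets

set_option autoImplicit false

/-!
# Project EGN: the table
-/

namespace Pool.Agent.EGN

open Pool.Agent.EGU Pool.Agent.EGS

namespace TBL_

/-- the table as a function -/
def tb (h : ℕ) : ℕ := tab.getD h 0

lemma F_le {h : ℕ} (hh : h ≤ 153) : F h = 8 * (tb h : ℤ) := by
  unfold F
  rw [if_pos hh]
  rfl

/-- binomial coefficient -/
def c2 (m : ℕ) : ℕ := m * (m - 1) / 2

lemma c2_eq (m : ℕ) : m.choose 2 = c2 m := Nat.choose_two_right m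

/-- recursive form of `g` -/
def gg (n : ℕ) : ℕ → ℕ
  | 0 => 0
  | v + 1 => gg n v + (n - (2 + 2 * v))

lemma gg_eq (n v : ℕ) : g n v = gg n v := by
  induction v with
  | zero => rfl
  | succ v ih =>
    unfold g at ih ⊢
    rw [Finset.sum_range_succ, ih]
    rfl

lemma k1 : ∀ h < 153, tb h ≤ tb (h + 1) := by decide +kernel

lemma k2 : ∀ m < 20, ∀ r < 20, 2 ≤ m → r ≤ m - 1 → c2 m ≤ 153 + r →
    8 * (tb (c2 m - r) : ℤ) ≤ Psi m r := by decide +kernel

lemma k3 : ∀ h < 154, ∀ r < 154, 1 ≤ r → r ≤ h →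
    min (c2 r) (h - r) + tb (h - r) ≤ tb h := by decide +kernel

lemma k4 : ∀ m < 19, ∀ h < 154, (2 ≤ m ∧ c2 (m - 1) < h ∧ h ≤ c2 m ∧ m + 1 ≤ h) →
    h + tb (h - (m + 1)) ≤ tb h := by decide +kernel

lemma k5 : ∀ m < 19, ∀ h < 154, (2 ≤ m ∧ c2 (m - 1) < h ∧ h ≤ c2 m) →
    m.choose 3 ≤ tb h + gg m (c2 m - h) ∨ (m ≤ h → h + tb (h - m) ≤ tb h) := by
  decide +kernel

lemma k6 : ∀ m < 19, 8 * tb (c2 m) ≤ 8 * m.choose 3 + 236 := by decide +kernel

lemma k7 : ∀ n < 19, ∀ h < 154, 2 ≤ n → h ≤ c2 n →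
    3 * tb h ≤ (n - 2) * h ∨ 3 * n.choose 3 ≤ (n - 2) * h + 3 * gg n (c2 n - h) := by
  decide +kernel

lemma c2_lt {m h : ℕ} (hh : h ≤ 153) (h1 : (m - 1).choose 2 < h) : m < 19 := by
  by_contra h2
  have h3 : Nat.choose 18 2 ≤ (m - 1).choose 2 := Nat.choose_le_choose 2 (by omega)
  have h4 : Nat.choose 18 2 = 153 := by decide
  omega

lemma c2_le {m k : ℕ} (h : m.choose 2 ≤ k) (n : ℕ) (hn : k < n.choose 2) : m < n := by
  by_contra h2
  have h3 : n.choose 2 ≤ m.choose 2 := Nat.choose_le_choose 2 (by omega)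
  omega

end TBL_

open TBL_ in
theorem p_TBL : T_TBL := by
  refine ⟨k1, ?_, ?_, ?_, ?_, ?_, ?_⟩
  · intro m r hm hr hmr
    have h1 : m < 20 := by
      by_contra h2
      have h3 : m = m - 20 + 20 := by omega
      obtain ⟨j, hj⟩ : ∃ j, m = j + 20 := ⟨m - 20, h3⟩
      subst hj
      rw [c2_eq, c2] at hmr
      have h5 : (j + 20) * (j + 20 - 1) = j * j + 39 * j + 380 := by
        have : j + 20 - 1 = j + 19 := by omega
        rw [this]
        ring
      rw [h5] at hmr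
      have h6 : 153 + (j + 19) < (j * j + 39 * j + 380) / 2 := by
        have h7 : 0 ≤ j * j := Nat.zero_le _
        omega
      omega
    have h2 : c2 m - r ≤ 153 := by
      rw [c2_eq] at hmr
      omega
    rw [c2_eq, F_le h2]
    rw [c2_eq] at hmr
    exact k2 m h1 r (by omega) hm hr hmr
  · intro h r hh hr hrh
    rw [F_le hh, F_le (show h - r ≤ 153 by omega), c2_eq]
    have := k3 h (by omega) r (by omega) hr hrh
    have h2 : ((min (c2 r) (h - r) + tb (h - r) : ℕ) : ℤ) ≤ (tb h : ℤ) := by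
      exact_mod_cast this
    rw [Nat.cast_add] at h2
    linarith
  · intro m h hh hm h1 h2 h3
    have hm' := c2_lt hh h1
    rw [F_le hh, F_le (show h - (m + 1) ≤ 153 by omega)]
    rw [c2_eq] at h1 h2
    have := k4 m hm' h (by omega) ⟨hm, h1, h2, h3⟩
    have h4 : ((h + tb (h - (m + 1)) : ℕ) : ℤ) ≤ (tb h : ℤ) := by exact_mod_cast this
    rw [Nat.cast_add] at h4
    linarith
  · intro m h hh hm h1 h2
    have hm' := c2_lt hh h1
    rw [F_le hh, gg_eq, c2_eq m]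
    rw [c2_eq] at h1 h2
    rcases k5 m hm' h (by omega) ⟨hm, h1, h2⟩ with h3 | h3
    · left
      have h4 : ((m.choose 3 : ℕ) : ℤ) ≤ ((tb h + gg m (c2 m - h) : ℕ) : ℤ) := by
        exact_mod_cast h3
      rw [Nat.cast_add] at h4
      linarith
    · right
      intro hmh
      rw [F_le (show h - m ≤ 153 by omega)]
      have h4 : ((h + tb (h - m) : ℕ) : ℤ) ≤ (tb h : ℤ) := by exact_mod_cast h3 hmh
      rw [Nat.cast_add] at h4
      linarith
  · intro m hm
    have hm' : m < 19 := c2_le hm 19 (by decide)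
    rw [F_le hm, c2_eq]
    have h4 : ((8 * tb (c2 m) : ℕ) : ℤ) ≤ ((8 * m.choose 3 + 236 : ℕ) : ℤ) := by
      exact_mod_cast k6 m hm'
    push_cast at h4
    exact h4
  · intro n h hn hn' hh
    have h0 : n.choose 2 ≤ Nat.choose 18 2 := Nat.choose_le_choose 2 hn'
    have h00 : Nat.choose 18 2 = 153 := by decide
    have hh' : h ≤ 153 := by omega
    rw [F_le hh', gg_eq, c2_eq n]
    rw [c2_eq] at hh
    rcases k7 n (by omega) h (by omega) hn hh with h3 | h3
    · have h4 : ((3 * tb h : ℕ) : ℤ) ≤ (((n - 2) * h : ℕ) : ℤ) := by exact_mod_cast h3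
      rw [Nat.cast_mul, Nat.cast_mul] at h4
      have h5 := min_le_left (8 * (tb h : ℤ))
        (8 * ((n.choose 3 : ℤ) - (gg n (c2 n - h) : ℤ)))
      push_cast at h4
      linarith
    · have h4 : ((3 * n.choose 3 : ℕ) : ℤ) ≤ (((n - 2) * h + 3 * gg n (c2 n - h) : ℕ) : ℤ) := by
        exact_mod_cast h3
      rw [Nat.cast_mul, Nat.cast_add, Nat.cast_mul, Nat.cast_mul] at h4
      have h5 := min_le_right (8 * (tb h : ℤ))
        (8 * ((n.choose 3 : ℤ) - (gg n (c2 n - h) : ℤ)))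
      push_cast at h4
      linarith

end Pool.Agent.EGN
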