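import Pool.Agent.EGS.Fin
import Pool.Agent.EGS.P_ACY
import Pool.Agent.EGS.P_AVO
import Pool.Agent.EGS.P_RES
import Pool.Agent.EGS.P_RED
import Pool.Agent.EGS.P_TRW

set_option autoImplicit false
open MvPolynomial hiding R

/-!
# Project EGN (MP_e5dae2_al): growth from degree 2 to degree 3, all numbers of variables

THEOREM. `K` any field, `I` a homogeneous ideal of `R = K[x_1, ..., x_n]` which contains a regular
sequence of `n` quadrics, `h_d = dim (R/I)_d`. Then `h_2 ≤ C(m,2)` implies `h_3 ≤ C(m,3) + 29`, and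
`3 h_3 ≤ (n - 2) h_2`.

The library of the projects EGU and EGS may be used (`t_dimr`, `t_cir`, `t_jd`, `t_upl`, `a_hf`,
`a_grow`, `hf`, `card_std`, `Pt_tw`, `p_ACY`, `p_AVO`, `p_RES`, `p_RED`, `p_TRW`, `BC2_.ext`, ...).
Every target has its proof in the docstring. A job proves
`theorem Pool.Agent.EGN.p_XXX (h1 : T_A) ... : T_XXX` in the file `Pool/Agent/EGN/P_XXX.lean`.
-/

namespace Pool.Agent.EGN

open Pool.Agent.EGU Pool.Agent.EGS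

universe u

noncomputable section

/-! ## A. Systems -/

/-- `W` is a space of quadrics which contains a regular sequence of `n` quadrics. -/
def Sys (K : Type u) [Field K] (n : ℕ) (W : Submodule K (R K n)) : Prop :=
  ∃ f : Fin n → R K n, CI f (tw n) ∧ Jd f 2 ≤ W ∧ W ≤ Rd K n 2

section
variable {K : Type u} [Field K] {n : ℕ}

/-- `h (W) = dim R_2 / W`. -/
def hh (W : Submodule K (R K n)) : ℕ :=
  Module.finrank K (Rd K n 2) - Module.finrank K W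

/-- `t (W) = dim R_3 / R_1 W`. -/
def tt (W : Submodule K (R K n)) : ℕ :=
  Module.finrank K (Rd K n 3) -
    Module.finrank K (Rd K n 1 * W : Submodule K (R K n))

/-- The linear forms `x` with `l x ∈ W`. -/
def kl (l : R K n) (W : Submodule K (R K n)) : Submodule K (R K n) :=
  Rd K n 1 ⊓ W.comap (LinearMap.mulLeft K l)

/-- The quadrics `p` with `l p ∈ R_1 W`. -/
def ql (l : R K n) (W : Submodule K (R K n)) : Submodule K (R K n) :=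
  Rd K n 2 ⊓ (Rd K n 1 * W : Submodule K (R K n)).comap (LinearMap.mulLeft K l)

/-- The linear forms `u` with `R_1 u ⊆ W`. -/
def soc (W : Submodule K (R K n)) : Submodule K (R K n) :=
  Rd K n 1 ⊓ ⨅ x : Rd K n 1, W.comap (LinearMap.mulLeft K (x : R K n))

end

/-- ELM. Elimination of a linear form `l ≠ 0`. PROOF. T_RES (`p_RES p_ACY p_AVO`; see the
signatures) gives `g` with `g 0 = l`, `CI g (Fin.cons 1 (tw n))`, `g (succ i) ∈ J f`; T_RED gives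
`θ : R K (n+1) →ₐ R K n`, surjective in every degree, `p ∈ J g ↔ θ p ∈ J g̃` and `CI g̃ (tw n)` for
`g̃ i = θ (g (succ i))`. The kernel of `θ` on `R_d` is `l R_{d-1}` (`d = 1`: the span of `l`). This
is not in T_RED; either show it from T_RED (dimensions: `dim (J_d g) - dim J_d g̃ = dim R_d(n+1) -
dim R_d(n)` from `p ∈ J g ↔ θ p ∈ J g̃`, so for `d = 1`, where `J_1 g̃ = 0`, the kernel on `R_1` is
`J_1 g = K l`; and for `d = 2, 3` by counting: `θ (l p) = 0`, `dim l R_{d-1} = dim R_{d-1}`,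
`dim R_d (n+1) = dim R_d (n) + dim R_{d-1} (n+1)`, `θ` surjective on `R_d`), or build `θ` directly
as in `Pool/Agent/EGS/P_RED.lean`. Put `W' = W.map θ`. `Sys n W'`: `g̃ i ∈ W'` because
`g (succ i)` is a quadric in `J f`, so in `J_2 f ≤ W`; `J_2 g̃` is the span of the `g̃ i` (T_JD), and
`W' ≤ R_2`. Dimensions (rank-nullity for `θ` on `W` and on `R_1 W`, `θ (R_1 W) = R_1 W'`):
`dim W = dim W' + dim (W ∩ l R_1)`, `W ∩ l R_1 = l * kl l W` (multiplication by `l` is injective),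
`dim R_1 W = dim R_1 W' + dim (R_1 W ∩ l R_2)`, `R_1 W ∩ l R_2 = l * ql l W`; and
`dim R_2 (n+1) = dim R_2 (n) + (n + 1)`, `dim R_3 (n+1) = dim R_3 (n) + dim R_2 (n+1)`. `soc`: `θ`
maps `soc W` into `soc W'` (surjectivity of `θ` on `R_1`), its kernel on `R_1` is one-dimensional. -/
def T_ELM : Prop := ∀ (K : Type u) [Field K] [Infinite K] (n : ℕ)
  (W : Submodule K (R K (n + 1))), Sys K (n + 1) W → ∀ l ∈ Rd K (n + 1) 1, l ≠ 0 →
  ∃ W' : Submodule K (R K n), Sys K n W' ∧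
    hh W' + (n + 1) = hh W + Module.finrank K (kl l W) ∧
    tt W + Module.finrank K (ql l W) = tt W' + Module.finrank K (Rd K (n + 1) 2) ∧
    Module.finrank K (soc W) ≤ Module.finrank K (soc W') + 1

/-- SOQ. PROOF. Induction on `dim soc W` (for all `n`). If it is `0`: `dim J_2 f ≤ dim W`, and
`dim J_2 f + C(n,2) = dim R_2` (`EGS.hf`, `card_std`). Otherwise `n = n' + 1` (`soc W ≤ R_1`, for
`n = 0` this is `0`), take `u ≠ 0` in `soc W` and apply T_ELM with `l = u`: `kl u W = R_1` has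
dimension `n' + 1`, so `hh W' = hh W`, and `dim soc W' ≥ dim soc W - 1`; the induction hypothesis
(or induction on `n`) and monotonicity of `C(·,2)`. -/
def T_SOQ : Prop := ∀ (K : Type u) [Field K] [Infinite K] (n : ℕ)
  (W : Submodule K (R K n)), Sys K n W →
  hh W ≤ (n - Module.finrank K (soc W)).choose 2

/-- STP. One step. PROOF. Let `l ≠ 0` be a linear form, `ρ (l) = n + 1 - dim (kl l W)`. T_ELM:
`hh W' = hh W - ρ (l)`.
First case: there are no linear forms `l, x ≠ 0` with `l x ∈ W`. Take `l = X 0`; `kl l W = 0`,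
and `W ≤ ql l W` (`l w ∈ R_1 W`), so `tt W ≤ tt W' + dim R_2 - dim W = tt W' + hh W`.
Second case: `l x ∈ W`, `l, x ≠ 0`, and by symmetry `dim kl x W ≤ dim kl l W`, `ρ = ρ (l)`. Then
(i) `W ⊔ x R_1 ≤ ql l W` (`l (x y) = y (l x)`), `dim (W ⊔ x R_1) = dim W + (n + 1) - dim (W ∩ x R_1)
= dim W + (n + 1) - dim kl x W ≥ dim W + ρ`, so `tt W ≤ tt W' + hh W - ρ`;
(ii) `W2 = W ⊔ R_1 * kl l W ≤ ql l W` (`l (y u) = y (l u)`), `Sys (n+1) W2`, `kl l W ≤ soc W2`, so by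
T_SOQ `dim R_2 - dim ql l W ≤ hh W2 ≤ C(ρ, 2)`, `tt W ≤ tt W' + C(ρ, 2)`. -/
def T_STP : Prop := ∀ (K : Type u) [Field K] [Infinite K] (n : ℕ)
  (W : Submodule K (R K (n + 1))), Sys K (n + 1) W →
  (∃ W' : Submodule K (R K n), Sys K n W' ∧ hh W = hh W' + (n + 1) ∧ tt W ≤ tt W' + hh W) ∨
  (∃ (ρ : ℕ) (W' : Submodule K (R K n)), Sys K n W' ∧ hh W = hh W' + ρ ∧
    tt W ≤ tt W' + min (ρ.choose 2) (hh W - ρ))

/-- The lower bound of the landed GrowthBound for quadrics in degree 2. -/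
def g (n v : ℕ) : ℕ := ∑ i ∈ Finset.range v, (n - (2 + 2 * i))

/-- GBQ. PROOF. `a_grow K n f (tw n) hf mono 2 v` with `v = dim W - dim J_2 f`: `Grow f 2 v N`,
`N = ∑ i < v, (n - (i + Pt (tw n) 2 (2 + i)))`; `Pt (tw n) 2 (2 + i) = 2 + i` if `2 + i ≤ n` (`Pt_tw`),
and if `n < 2 + i` then `Pt ≥ ... = n` (or bound the term `n - (2 + 2 i) = 0` below by `0`). So
`dim J_3 f + g n v ≤ dim (up f 2 W)`, `up f 2 W = R_1 W` (`J_3 f ≤ R_1 J_2 f`, T_JD), and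
`dim J_d f + C(n,d) = dim R_d` (`EGS.hf` and `card_std`). -/
def T_GBQ : Prop := ∀ (K : Type u) [Field K] (n : ℕ) (W : Submodule K (R K n)), Sys K n W →
  hh W ≤ n.choose 2 ∧ tt W + g n (n.choose 2 - hh W) ≤ n.choose 3

/-- Closure properties of a bound `F` (scaled by `8`) for `tt` in terms of `hh`. -/
structure Clo (F : ℕ → ℤ) : Prop where
  zero : 0 ≤ F 0
  mono : Monotone F
  c2 : ∀ h r : ℕ, 1 ≤ r → r ≤ h → 8 * ((min (r.choose 2) (h - r) : ℕ) : ℤ) + F (h - r) ≤ F h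
  c1 : ∀ m h : ℕ, 2 ≤ m → (m - 1).choose 2 < h → h ≤ m.choose 2 → m + 1 ≤ h →
    8 * (h : ℤ) + F (h - (m + 1)) ≤ F h
  c0 : ∀ m h : ℕ, 2 ≤ m → (m - 1).choose 2 < h → h ≤ m.choose 2 →
    8 * ((m.choose 3 : ℤ) - (g m (m.choose 2 - h) : ℤ)) ≤ F h ∨
      (m ≤ h → 8 * (h : ℤ) + F (h - m) ≤ F h)

/-- IND. PROOF. Induction on `n` for all `W`. `n = 0`: `Rd K 0 3 = 0`, so `tt W = 0`, and `F ≥ 0`
(`zero`, `mono`). Step `n + 1`, `h = hh W`. If `h = 0`: `hh W' = 0` in both cases of T_STP, and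
`tt W ≤ tt W' + 0`. Let `h ≥ 1`, and `m` the least number with `h ≤ C(m,2)` (`m ≥ 2`,
`C(m-1,2) < h`); `h ≤ C(n+1,2)` (T_GBQ), so `m ≤ n + 1`. Second case of T_STP: `ρ = 0`: trivial;
`ρ ≥ 1`: `c2`. First case: if `m ≤ n` then `c1` and `F (h - (n+1)) ≤ F (h - (m+1))`; if `m = n + 1`
then `c0` (with T_GBQ for `n + 1` if the first alternative holds). -/
def T_IND : Prop := ∀ (F : ℕ → ℤ), Clo F → ∀ (K : Type u) [Field K] [Infinite K] (n : ℕ)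
  (W : Submodule K (R K n)), Sys K n W → 8 * (tt W : ℤ) ≤ F (hh W)

/-- BCH. Base change. PROOF. `BC2_.ext`: `finrank_ext`, `Rd_ext`, `Jd_ext`, `t_bc1`, and
`ext E (R_1 W) = R_1 (ext E W)` (`Submodule.span_mul_span`, see `up_ext`). -/
def T_BCH : Prop := ∀ (K E : Type u) [Field K] [Field E] [Algebra K E] (n : ℕ)
  (W : Submodule K (R K n)), Sys K n W →
  ∃ W' : Submodule E (R E n), Sys E n W' ∧ hh W' = hh W ∧ tt W' = tt W

/-- DEG. From ideals to systems. PROOF. `W = I_2 = Rd K n 2 ⊓ I`, `Sys n W` by T_REG (`t_reg`),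
`R_1 W ≤ I_3`. -/
def T_DEG : Prop := ∀ (K : Type u) [Field K] (n : ℕ) (I : Ideal (MvPolynomial (Fin n) K))
  (f : Fin n → MvPolynomial (Fin n) K), (∀ i, (f i).IsHomogeneous 2) → (∀ i, f i ∈ I) →
  RingTheory.Sequence.IsRegular (MvPolynomial (Fin n) K) (List.ofFn f) →
  ∃ W : Submodule K (R K n), Sys K n W ∧
    hh W = Module.finrank K (Rd K n 2) -
      Module.finrank K ↥(Rd K n 2 ⊓ Submodule.restrictScalars K I) ∧
    Module.finrank K (Rd K n 3) -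
      Module.finrank K ↥(Rd K n 3 ⊓ Submodule.restrictScalars K I) ≤ tt W

/-! ## B. Numbers -/

/-- The bound for `h ≤ 153`. -/
def tab : List ℕ := [0, 0, 0, 1, 2, 5, 6, 7, 8, 10, 12, 14, 17, 19, 21,
  23, 26, 27, 30, 33, 37, 40, 43, 44, 47, 51, 53, 57, 61, 66,
  68, 71, 75, 77, 81, 86, 89, 94, 99, 100, 106, 109, 113, 118, 121,
  126, 132, 136, 140, 143, 149, 151, 158, 162, 167, 173, 177, 183, 190, 191,
  196, 201, 205, 212, 215, 223, 228, 234, 241, 246, 250, 254, 262, 264, 270,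
  276, 281, 289, 294, 302, 308, 315, 322, 324, 330, 335, 340, 349, 352, 359,
  366, 372, 381, 387, 396, 403, 406, 412, 420, 423, 430, 436, 442, 452, 456,
  464, 472, 479, 489, 496, 504, 507, 515, 519, 526, 535, 539, 547, 555, 561,
  572, 577, 586, 595, 603, 614, 616, 623, 632, 636, 645, 650, 658, 668, 673,
  682, 692, 698, 710, 716, 726, 736, 744, 746, 758, 761, 769, 779, 784, 794,
  801, 809, 820, 828]

/-- First function. -/
def qA (m r : ℤ) : ℤ := r * (4 * m - r + 2)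

/-- Second function. -/
def qB (m r : ℤ) : ℤ := -m ^ 2 + 6 * m * r - r ^ 2 - 4 * m - 4 * r + 5

/-- The bound (times `8`) for `h = C(m,2) - r`. -/
def Psi (m r : ℕ) : ℤ := 8 * (m.choose 3 : ℤ) - max (qA m r) (qB m r) + 236

lemma ex_mm (h : ℕ) : ∃ m : ℕ, h ≤ m.choose 2 := by
  refine ⟨h + 2, ?_⟩
  rw [Nat.choose_two_right]
  have h1 : (h + 2) * (h + 2 - 1) = 2 * h + (h * (h + 1) + 2) := by
    have : h + 2 - 1 = h + 1 := by omega
    rw [this]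
    ring
  rw [h1]
  omega

/-- The least `m` with `h ≤ C(m,2)`. -/
def mm (h : ℕ) : ℕ := Nat.find (ex_mm h)

/-- The bound (times `8`). -/
def F (h : ℕ) : ℤ :=
  if h ≤ 153 then 8 * (tab.getD h 0 : ℤ) else Psi (mm h) ((mm h).choose 2 - h)

/-- TBL. The table. PROOF. By computation: restrict to `m ≤ 18` (from `(m-1).choose 2 < h ≤ 153`)
and `r ≤ m` (for `r > m` use the monotonicity of the table and `C(m,2) ≥ h`: the value for `r` is at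
most the value `h - m + F (h - m)` for `r = m`), turn `F` into `tab.getD` by `if_pos` and use `decide`
(a Boolean check with `List.all` on `List.range`, `decide +kernel` if needed). -/
def T_TBL : Prop :=
  (∀ h : ℕ, h < 153 → tab.getD h 0 ≤ tab.getD (h + 1) 0) ∧
  (∀ m r : ℕ, 2 ≤ m → r ≤ m - 1 → m.choose 2 ≤ 153 + r → F (m.choose 2 - r) ≤ Psi m r) ∧
  (∀ h r : ℕ, h ≤ 153 → 1 ≤ r → r ≤ h →
    8 * ((min (r.choose 2) (h - r) : ℕ) : ℤ) + F (h - r) ≤ F h) ∧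
  (∀ m h : ℕ, h ≤ 153 → 2 ≤ m → (m - 1).choose 2 < h → h ≤ m.choose 2 → m + 1 ≤ h →
    8 * (h : ℤ) + F (h - (m + 1)) ≤ F h) ∧
  (∀ m h : ℕ, h ≤ 153 → 2 ≤ m → (m - 1).choose 2 < h → h ≤ m.choose 2 →
    8 * ((m.choose 3 : ℤ) - (g m (m.choose 2 - h) : ℤ)) ≤ F h ∨
      (m ≤ h → 8 * (h : ℤ) + F (h - m) ≤ F h)) ∧
  (∀ m : ℕ, m.choose 2 ≤ 153 → F (m.choose 2) ≤ 8 * (m.choose 3 : ℤ) + 236) ∧
  (∀ n h : ℕ, 2 ≤ n → n ≤ 18 → h ≤ n.choose 2 →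
    3 * min (F h) (8 * ((n.choose 3 : ℤ) - (g n (n.choose 2 - h) : ℤ))) ≤
      8 * (((n - 2 : ℕ) : ℤ) * h))

/-- EXT. `F` in terms of `Psi`. PROOF. `mm h = m` if `C(m-1,2) < h ≤ C(m,2)`. Second part: if
`C(m,2) - r ≤ 153` then T_TBL; otherwise, if `r ≤ m - 2`, `mm (C(m,2) - r) = m` and there is equality;
if `r = m - 1` then `C(m,2) - r = C(m-1,2)`, `F = Psi (m-1) 0 = 8 C(m-1,3) + 236` and `m ≥ 19`:
`qB m (m-1) = 4 (m-1)(m-2) ≥ qA m (m-1) = 3 (m-1)(m+1)`, `8 C(m,3) - 8 C(m-1,3) = 4 (m-1)(m-2)`.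
Monotonicity: inside a block `qA`, `qB` increase with `r`, between blocks `F (C(m-1,2)) =
Psi m (m-1) ≤ Psi m (m-2)`; `F 153 ≤ F 154`. -/
def T_EXT : Prop :=
  (∀ m r : ℕ, 19 ≤ m → r ≤ m - 2 → F (m.choose 2 - r) = Psi m r) ∧
  (∀ m r : ℕ, 2 ≤ m → r ≤ m - 1 → F (m.choose 2 - r) ≤ Psi m r) ∧
  Monotone F

/-- C2. PROOF. `h > 153`, `h = C(m,2) - r0`, `m ≥ 19`, `r0 ≤ m - 2`, `F h = Psi m r0`. For
`r ≥ m - 1` the left side is at most `8 (h - (m-1)) + F (h - (m-1))` (`F` monotone), and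
`h - (m - 1) = C(m-1,2) - r0`, `F ≤ Psi (m-1) r0`: reduce to
(iii) `8 (C(m-1,2) - r0) + Psi (m-1) r0 ≤ Psi m r0`, that is (`8 C(m,3) = 8 C(m-1,3) + 8 C(m-1,2)`)
`max (qA m r0) (qB m r0) ≤ 8 r0 + max (qA (m-1) r0) (qB (m-1) r0)`.
For `r ≤ m - 2`, `r0 + r ≤ m - 1`: `h - r = C(m,2) - (r0 + r)`; (i) `8 C(r,2) + Psi m (r0 + r) ≤
Psi m r0`, that is `4 r (r-1) + max (qA m r0) (qB m r0) ≤ max (qA m (r0+r)) (qB m (r0+r))`. If
`qB m r0` is the maximum: `qB m (r0+r) - qB m r0 = r (6m - 2 r0 - r - 4) ≥ 4 r (r-1)` as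
`5 (r0 + r) ≤ 5 m - 5`. If `qA m r0 ≥ qB m r0`: for `5 r ≤ 4m - 2 r0 + 6` use `qA`; otherwise
`σ = r0 + r`: `qB m σ - 4 (σ-r0)(σ-r0-1) - qA m r0` is concave in `r0`; its value at `r0 = 0` is
`(m-1-σ)(5σ-m-5) ≥ 0`; see the numbers (the largest `r0` with `qA ≥ qB` is about `m/2 + 4`, and
`5 σ > 4 m + 3 r0 + 6`).
For `r ≤ m - 2`, `s = r0 + r - (m-1) ≥ 0`, `t = m - 1 - r ≥ 1`, `s = r0 - t`: `h - r = C(m-1,2) - s`,
(ii) `8 C(r,2) + Psi (m-1) s ≤ Psi m r0`, that is with `8 C(m-1,2) - 8 C(m-1-t,2) =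
8 t (m-1) - 4 t (t+1)`: `max (qA m r0) (qB m r0) ≤ max (qA (m-1) (r0-t)) (qB (m-1) (r0-t)) +
8 t (m-1) - 4 t (t+1)` for `1 ≤ t ≤ r0 ≤ m - 2`. -/
def T_C2 : Prop := ∀ h r : ℕ, 153 < h → 1 ≤ r → r ≤ h →
  8 * ((min (r.choose 2) (h - r) : ℕ) : ℤ) + F (h - r) ≤ F h

/-- C1. PROOF. `h = C(m,2) - r`, `m ≥ 19`, `r ≤ m - 2`, `h - (m+1) = C(m-1,2) - (r+2)`. If
`r + 2 ≤ m - 2`: `F ≤ Psi (m-1) (r+2)`, and `max (qA m r) (qB m r) + 8 (m-1-r) ≤
max (qA (m-1) (r+2)) (qB (m-1) (r+2))`: `qA (m-1) (r+2) - qA m r = 8 (m-1-r)`,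
`qB (m-1) (r+2) - qB m r = 14 m - 10 r - 21`. If `r = m - 3` or `r = m - 2`:
`C(m-1,2) - (r+2) = C(m-2,2) - (r+4-m)`, `F ≤ Psi (m-2) 1` or `Psi (m-2) 2`. -/
def T_C1 : Prop := ∀ m h : ℕ, 153 < h → (m - 1).choose 2 < h → h ≤ m.choose 2 →
  8 * (h : ℤ) + F (h - (m + 1)) ≤ F h

/-- C0. PROOF. `h = C(m,2) - r`, `m ≥ 19`, `r ≤ m - 2`. If `qA m r ≤ qB m r`: second alternative,
`h - m = C(m-1,2) - (r+1)`; for `r ≤ m - 3`: `F ≤ Psi (m-1) (r+1)`,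
`qB (m-1) (r+1) - qB m r = 8 (m-1-r)`; for `r = m - 2`: `C(m-1,2) - (m-1) = C(m-2,2) - 1`,
`F ≤ Psi (m-2) 1`. If `qB m r < qA m r`: first alternative, `qA m r ≤ 8 g (m) (r) + 236`;
`g m r = r (m-1-r)` if `2 r ≤ m`, and `4 g m r ≥ (m-1)^2 - 1` if `2 r ≥ m`; `qB < qA` means
`(2 m - 6) r < m^2 + 4 m - 5`. For `m ≥ 62` this is a polynomial inequality, for `19 ≤ m ≤ 61` check
by `decide`. -/
def T_C0 : Prop := ∀ m h : ℕ, 153 < h → (m - 1).choose 2 < h → h ≤ m.choose 2 →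
    8 * ((m.choose 3 : ℤ) - (g m (m.choose 2 - h) : ℤ)) ≤ F h ∨
      (m ≤ h → 8 * (h : ℤ) + F (h - m) ≤ F h)

/-- LYM. PROOF. `n ≤ 18`: T_TBL. Let `n ≥ 19`. If `h ≤ C(n-1,2)` and `h > 153`, `h = C(m,2) - r`,
`m ≤ n - 1`, `r ≤ m - 2`, `19 ≤ m`: `F h = Psi m r`, and `3 Psi m r ≤ 8 (m-1) h`, that is
`708 + 8 (m-1) r ≤ 4 m (m-1) + 3 max (qA m r) (qB m r)` (`8 (m-1) C(m,2) - 24 C(m,3) = 4 m (m-1)`;
`3 qA m r ≥ 8 (m-1) r` for `r ≤ m`, `4 * 19 * 18 ≥ 708`). If `h ≤ 153`: `3 F h ≤ 8 * 17 * h`,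
check by `decide`. If `h > C(n-1,2)`: `h = C(n,2) - r`, `r ≤ n - 2`, `F h = Psi n r`; claim
`8 (n-2) r ≤ 24 g n r` or `8 (n-2) r + 708 ≤ 3 max (qA n r) (qB n r)`: the first for
`4 r ≤ 3 n - 3` or so (`g n r = r (n-1-r)` if `2 r ≤ n`, `4 g n r ≥ (n-1)^2 - 1` if `2 r ≥ n`), the
second with `qB` for `4 r ≥ 3 n - 4`. -/
def T_LYM : Prop := ∀ n h : ℕ, 2 ≤ n → h ≤ n.choose 2 →
  3 * min (F h) (8 * ((n.choose 3 : ℤ) - (g n (n.choose 2 - h) : ℤ))) ≤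
    8 * (((n - 2 : ℕ) : ℤ) * h)

end

end Pool.Agent.EGN
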